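import Pool.Agent.helper22.EC.FF

/-!
# MP_00de39_al (project EC): echelon subgroups, EL1 and EL3
-/

set_option autoImplicit false
set_option linter.unusedSectionVars false
set_option linter.unusedVariables false

namespace Pool.Agent.helper22.EC

open FreeGroup Cardinal

lemma EL_map_inf {G G' : Type} [Group G] [Group G'] (f : G →* G') (hf : Function.Injective f)
    (A B : Subgroup G) : (A ⊓ B).map f = A.map f ⊓ B.map f := by
  apply le_antisymm
  · exact le_inf (Subgroup.map_mono inf_le_left) (Subgroup.map_mono inf_le_right)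
  · rintro x ⟨⟨a, ha, rfl⟩, ⟨b, hb, hab⟩⟩
    rw [hf hab] at hb
    exact ⟨a, ⟨ha, hb⟩, rfl⟩

lemma EL_Fb {n : ℕ} (X : FreeGroupBasis (Fin n) (FreeGroup (Fin n))) (i : ℕ) :
    (Fb X i).map X.repr.toMonoidHom = Fs n i := by
  rw [Fb, Fs, MonoidHom.map_closure, ← Set.image_comp]
  congr 2
  ext j
  simp

lemma EL_form {n : ℕ} (X : FreeGroupBasis (Fin n) (FreeGroup (Fin n)))
    (H : Subgroup (FreeGroup (Fin n))) : EchelonForm X H ↔ EF (H.map X.repr.toMonoidHom) := by
  have h : ∀ i, rk (H.map X.repr.toMonoidHom ⊓ Fs n i) = rk (H ⊓ Fb X i) := by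
    intro i
    rw [← EL_Fb X i, ← EL_map_inf _ X.repr.injective]
    exact rk_map _ X.repr.injective _
  unfold EchelonForm EF
  simp only [h]

theorem isEchelon_iff {n : ℕ} (H : Subgroup (FreeGroup (Fin n))) :
    IsEchelon H ↔ ∃ Φ : FreeGroup (Fin n) ≃* FreeGroup (Fin n), EF (H.map Φ.toMonoidHom) := by
  constructor
  · rintro ⟨X, hX⟩
    exact ⟨X.repr, (EL_form X H).1 hX⟩
  · rintro ⟨Φ, hΦ⟩
    exact ⟨FreeGroupBasis.ofRepr Φ, (EL_form (FreeGroupBasis.ofRepr Φ) H).2 hΦ⟩

theorem isEchelon_comap {n : ℕ} (φ : FreeGroup (Fin n) ≃* FreeGroup (Fin n))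
    (H : Subgroup (FreeGroup (Fin n))) (h : IsEchelon H) : IsEchelon (H.comap φ.toMonoidHom) := by
  obtain ⟨Φ, hΦ⟩ := (isEchelon_iff H).1 h
  refine (isEchelon_iff _).2 ⟨φ.trans Φ, ?_⟩
  have : (H.comap φ.toMonoidHom).map (φ.trans Φ).toMonoidHom = H.map Φ.toMonoidHom := by
    ext x
    constructor
    · rintro ⟨y, hy, rfl⟩
      exact ⟨φ y, hy, rfl⟩
    · rintro ⟨y, hy, rfl⟩
      exact ⟨φ.symm y, by
        show φ (φ.symm y) ∈ H
        rw [φ.apply_symm_apply]; exact hy, by
        show Φ (φ (φ.symm y)) = Φ y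
        rw [φ.apply_symm_apply]⟩
  rw [this]; exact hΦ

lemma EL_inf_ff {G : Type} [Group G] (H A : Subgroup G) (hA : IsFF A) :
    IsFF ((H ⊓ A).subgroupOf H) := by
  have := ff_inter A H hA
  rwa [← Subgroup.inf_subgroupOf_left] at this

theorem EF_of_rk_le_one {n : ℕ} (H : Subgroup (FreeGroup (Fin n))) (h : rk H ≤ 1) : EF H := by
  intro i _
  have h1 := rk_le_of_ff (H ⊓ Fs n (i + 1)) H inf_le_left (EL_inf_ff H _ (ff_Fs n (i + 1)))
  exact (h1.trans h).trans le_add_self

lemma EL_Fb_mono {n : ℕ} (X : FreeGroupBasis (Fin n) (FreeGroup (Fin n))) {i j : ℕ} (h : i ≤ j) :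
    Fb X i ≤ Fb X j := by
  unfold Fb
  refine Subgroup.closure_mono (Set.image_mono ?_)
  intro k hk
  exact lt_of_lt_of_le hk h

lemma EL_Fs_mono {n : ℕ} {i j : ℕ} (h : i ≤ j) : Fs n i ≤ Fs n j := by
  unfold Fs
  refine Subgroup.closure_mono (Set.image_mono ?_)
  intro k hk
  exact lt_of_lt_of_le hk h

lemma EL_Fs_top {n i : ℕ} (h : n ≤ i) : Fs n i = ⊤ := by
  rw [eq_top_iff, ← FreeGroup.closure_range_of, Fs]
  refine Subgroup.closure_mono ?_
  rintro _ ⟨k, rfl⟩
  exact ⟨k, by have := k.isLt; show k.val < i; omega, rfl⟩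

lemma EL_Fb_top {n i : ℕ} (X : FreeGroupBasis (Fin n) (FreeGroup (Fin n))) (h : n ≤ i) :
    Fb X i = ⊤ := by
  have h1 := EL_Fb X i
  rw [EL_Fs_top h] at h1
  rw [eq_top_iff]
  intro x _
  have h2 : X.repr x ∈ (Fb X i).map X.repr.toMonoidHom := by rw [h1]; trivial
  obtain ⟨y, hy, hxy⟩ := h2
  rw [← X.repr.injective hxy]; exact hy

lemma EL_mem_closure_of {α : Type} [DecidableEq α] (S : Set α) (g : FreeGroup α)
    (h : g ∈ Subgroup.closure (of '' S)) : ∀ l ∈ g.toWord, l.1 ∈ S := by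
  induction h using Subgroup.closure_induction with
  | mem x hx =>
    obtain ⟨a, ha, rfl⟩ := hx
    intro l hl
    rw [toWord_of, List.mem_singleton] at hl
    rw [hl]; exact ha
  | one => intro l hl; simp at hl
  | mul x y _ _ hx hy =>
    intro l hl
    have := (toWord_mul_sublist x y).subset hl
    rcases List.mem_append.1 this with h | h
    · exact hx l h
    · exact hy l h
  | inv x _ hx =>
    intro l hl
    rw [toWord_inv] at hl
    unfold FreeGroup.invRev at hl
    rw [List.mem_reverse, List.mem_map] at hl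
    obtain ⟨l', hl', rfl⟩ := hl
    exact hx l' hl'

lemma EL_Fs_ne_top (n : ℕ) : Fs (n + 1) n ≠ ⊤ := by
  intro h
  have h1 : of (Fin.last n) ∈ Fs (n + 1) n := by rw [h]; trivial
  have := EL_mem_closure_of _ _ h1 (Fin.last n, true) (by rw [toWord_of]; simp)
  exact absurd this (by simp)

theorem echelon_top {n : ℕ} (H : Subgroup (FreeGroup (Fin (n + 1)))) (h : IsEchelon H) :
    ∃ A : Subgroup (FreeGroup (Fin (n + 1))), IsFF A ∧ A ≠ ⊤ ∧ rk H ≤ rk (H ⊓ A) + 1 ∧
      IsEchelon (H ⊓ A) := by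
  obtain ⟨X, hX⟩ := h
  refine ⟨Fb X n, ⟨Fin (n + 1), X, {j | j.val < n}, rfl⟩, ?_, ?_, X, ?_⟩
  · intro h
    apply EL_Fs_ne_top n
    rw [← EL_Fb X n, h, ← MonoidHom.range_eq_map]
    exact MonoidHom.range_eq_top.2 X.repr.surjective
  · have := hX n (by omega)
    rwa [EL_Fb_top X le_rfl, inf_top_eq] at this
  · intro i hi
    rcases Nat.lt_or_ge i n with h | h
    · rw [inf_assoc, inf_eq_right.2 (EL_Fb_mono X (by omega : i + 1 ≤ n)), inf_assoc,
        inf_eq_right.2 (EL_Fb_mono X h.le)]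
      exact hX i hi
    · have : i = n := by omega
      subst this
      rw [EL_Fb_top X le_rfl, inf_top_eq, inf_assoc, inf_idem]
      exact le_self_add

/-! ### extension of automorphisms -/

/-- extension of a homomorphism by the identity on the last letter -/
def EL_ext {n : ℕ} (f : FreeGroup (Fin n) →* FreeGroup (Fin n)) :
    FreeGroup (Fin (n + 1)) →* FreeGroup (Fin (n + 1)) :=
  FreeGroup.lift fun i => Fin.lastCases (motive := fun _ => FreeGroup (Fin (n + 1)))
    (of (Fin.last n)) (fun j => FreeGroup.map Fin.castSucc (f (of j))) i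

lemma EL_ext_last {n : ℕ} (f : FreeGroup (Fin n) →* FreeGroup (Fin n)) :
    EL_ext f (of (Fin.last n)) = of (Fin.last n) := by
  rw [EL_ext, FreeGroup.lift_apply_of, Fin.lastCases_last]

lemma EL_ext_castSucc {n : ℕ} (f : FreeGroup (Fin n) →* FreeGroup (Fin n)) (j : Fin n) :
    EL_ext f (of j.castSucc) = FreeGroup.map Fin.castSucc (f (of j)) := by
  rw [EL_ext, FreeGroup.lift_apply_of, Fin.lastCases_castSucc]

lemma EL_ext_map {n : ℕ} (f : FreeGroup (Fin n) →* FreeGroup (Fin n)) (x : FreeGroup (Fin n)) :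
    EL_ext f (FreeGroup.map Fin.castSucc x) = FreeGroup.map Fin.castSucc (f x) := by
  have : (EL_ext f).comp (FreeGroup.map Fin.castSucc) = (FreeGroup.map Fin.castSucc).comp f := by
    ext j
    rw [MonoidHom.comp_apply, MonoidHom.comp_apply, FreeGroup.map.of, EL_ext_castSucc]
  exact DFunLike.congr_fun this x

lemma EL_ext_comp {n : ℕ} (f g : FreeGroup (Fin n) →* FreeGroup (Fin n))
    (h : ∀ x, f (g x) = x) (x : FreeGroup (Fin (n + 1))) : EL_ext f (EL_ext g x) = x := by
  have : (EL_ext f).comp (EL_ext g) = MonoidHom.id _ := by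
    ext i
    refine Fin.lastCases ?_ (fun j => ?_) i
    · rw [MonoidHom.comp_apply, EL_ext_last, EL_ext_last]; rfl
    · rw [MonoidHom.comp_apply, EL_ext_castSucc, EL_ext_map, h, FreeGroup.map.of]; rfl
  exact DFunLike.congr_fun this x

/-- extension of an automorphism -/
def EL_extE {n : ℕ} (Φ : FreeGroup (Fin n) ≃* FreeGroup (Fin n)) :
    FreeGroup (Fin (n + 1)) ≃* FreeGroup (Fin (n + 1)) :=
  { toFun := EL_ext Φ.toMonoidHom
    invFun := EL_ext Φ.symm.toMonoidHom
    left_inv := EL_ext_comp _ _ Φ.symm_apply_apply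
    right_inv := EL_ext_comp _ _ Φ.apply_symm_apply
    map_mul' := _root_.map_mul _ }

lemma EL_norm_map {α β : Type} [DecidableEq α] [DecidableEq β] (f : α → β) (x : FreeGroup α) :
    FreeGroup.norm (FreeGroup.map f x) ≤ FreeGroup.norm x := by
  rw [← mk_toWord (x := x), FreeGroup.map.mk]
  refine norm_mk_le.trans ?_
  rw [List.length_map, mk_toWord]
  rfl

/-- the permutation of the letters -/
def EL_perm {n : ℕ} (s : Fin (n + 1)) : Fin (n + 1) ≃ Fin (n + 1) :=
  (finSuccEquiv' s).trans (finSuccEquiv' (Fin.last n)).symm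

lemma EL_perm_succAbove {n : ℕ} (s : Fin (n + 1)) (j : Fin n) :
    EL_perm s (s.succAbove j) = j.castSucc := by
  simp [EL_perm]

lemma EL_perm_self {n : ℕ} (s : Fin (n + 1)) : EL_perm s s = Fin.last n := by
  simp [EL_perm]

lemma EL_perm_symm_last {n : ℕ} (s : Fin (n + 1)) : (EL_perm s).symm (Fin.last n) = s := by
  rw [Equiv.symm_apply_eq, EL_perm_self]

lemma EL_Fs_succ {n : ℕ} (i : ℕ) (hi : i ≤ n) :
    Fs (n + 1) i = (Fs n i).map (FreeGroup.map Fin.castSucc) := by
  rw [Fs, Fs, MonoidHom.map_closure, ← Set.image_comp]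
  congr 1
  ext g
  constructor
  · rintro ⟨j, hj, rfl⟩
    have hj' : j.val < i := hj
    refine ⟨⟨j.val, by omega⟩, hj', ?_⟩
    rw [Function.comp_apply, FreeGroup.map.of]
    rfl
  · rintro ⟨j, hj, rfl⟩
    refine ⟨j.castSucc, hj, ?_⟩
    rw [Function.comp_apply, FreeGroup.map.of]

lemma EL_Sm_eq_range {n : ℕ} (s : Fin (n + 1)) :
    Sm s = (FreeGroup.map (Fin.succAbove s)).range := by
  rw [FreeGroup.range_map, Sm]
  congr 2
  ext b
  simp [Fin.range_succAbove]

theorem echelon_step {n : ℕ} (s : Fin (n + 1)) (H : Subgroup (FreeGroup (Fin (n + 1))))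
    (hr : rk H ≤ rk (H ⊓ Sm s) + 1) (B : ℕ) (Φ' : FreeGroup (Fin n) ≃* FreeGroup (Fin n))
    (hB : Bd B Φ')
    (hE : EF ((H.comap (FreeGroup.map (Fin.succAbove s))).map Φ'.toMonoidHom)) :
    ∃ Φ : FreeGroup (Fin (n + 1)) ≃* FreeGroup (Fin (n + 1)), Bd (max B 1) Φ ∧
      EF (H.map Φ.toMonoidHom) := by
  have hcinj : Function.Injective (FreeGroup.map (Fin.castSucc (n := n))) :=
    FreeGroup.map_injective (Fin.castSucc_injective n)
  have hsinj : Function.Injective (FreeGroup.map (Fin.succAbove s)) :=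
    FreeGroup.map_injective Fin.succAbove_right_injective
  let Φ : FreeGroup (Fin (n + 1)) ≃* FreeGroup (Fin (n + 1)) :=
    (FreeGroup.freeGroupCongr (EL_perm s)).trans (EL_extE Φ')
  have hΦs : ∀ x, Φ (FreeGroup.map (Fin.succAbove s) x) = FreeGroup.map Fin.castSucc (Φ' x) := by
    intro x
    have h1 : (FreeGroup.freeGroupCongr (EL_perm s)) (FreeGroup.map (Fin.succAbove s) x)
        = FreeGroup.map Fin.castSucc x := by
      show FreeGroup.map (EL_perm s) (FreeGroup.map (Fin.succAbove s) x) = _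
      rw [FreeGroup.map.comp]
      congr 1
      congr 1
      funext j
      exact EL_perm_succAbove s j
    have h2 := congrArg (EL_ext Φ'.toMonoidHom) h1
    exact h2.trans (EL_ext_map _ _)
  have hΦ : ∀ i : Fin (n + 1), Φ (of i) = EL_ext Φ'.toMonoidHom (of (EL_perm s i)) := by
    intro i
    show EL_ext Φ'.toMonoidHom (FreeGroup.map (EL_perm s) (of i)) = _
    rw [FreeGroup.map.of]
  refine ⟨Φ, ?_, ?_⟩
  · intro i
    constructor
    · rw [hΦ]
      generalize EL_perm s i = k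
      refine Fin.lastCases ?_ (fun j => ?_) k
      · rw [EL_ext_last, norm_of]; exact le_max_right _ _
      · rw [EL_ext_castSucc]
        exact ((EL_norm_map _ _).trans (hB j).1).trans (le_max_left _ _)
    · have h1 : Φ.symm (of i)
          = FreeGroup.map (EL_perm s).symm (EL_ext Φ'.symm.toMonoidHom (of i)) := rfl
      rw [h1]
      refine (EL_norm_map _ _).trans ?_
      refine Fin.lastCases ?_ (fun j => ?_) i
      · rw [EL_ext_last, norm_of]; exact le_max_right _ _
      · rw [EL_ext_castSucc]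
        exact ((EL_norm_map _ _).trans (hB j).2).trans (le_max_left _ _)
  · have hcomap : (H.map Φ.toMonoidHom).comap (FreeGroup.map Fin.castSucc)
        = (H.comap (FreeGroup.map (Fin.succAbove s))).map Φ'.toMonoidHom := by
      ext x
      constructor
      · rintro ⟨h, hh, hx⟩
        have h2 : h = FreeGroup.map (Fin.succAbove s) (Φ'.symm x) := by
          apply Φ.injective
          rw [hΦs, Φ'.apply_symm_apply]
          exact hx
        refine ⟨Φ'.symm x, ?_, Φ'.apply_symm_apply x⟩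
        show FreeGroup.map (Fin.succAbove s) (Φ'.symm x) ∈ H
        rw [← h2]; exact hh
      · rintro ⟨y, hy, rfl⟩
        exact ⟨_, hy, hΦs y⟩
    have hkey : ∀ i, i ≤ n → rk (H.map Φ.toMonoidHom ⊓ Fs (n + 1) i)
        = rk ((H.comap (FreeGroup.map (Fin.succAbove s))).map Φ'.toMonoidHom ⊓ Fs n i) := by
      intro i hi
      rw [← hcomap, EL_Fs_succ i hi, ← rk_map (FreeGroup.map Fin.castSucc) hcinj]
      congr 1
      rw [EL_map_inf _ hcinj, Subgroup.map_comap_eq]
      rw [inf_comm (FreeGroup.map Fin.castSucc).range, inf_assoc]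
      congr 1
      symm
      rw [inf_eq_right]
      rintro _ ⟨y, _, rfl⟩
      exact ⟨y, rfl⟩
    intro i hi
    rcases Nat.lt_or_ge i n with h | h
    · rw [hkey (i + 1) (by omega), hkey i h.le]
      exact hE i h
    · have : i = n := by omega
      subst this
      rw [EL_Fs_top le_rfl, inf_top_eq, hkey i le_rfl, EL_Fs_top le_rfl, inf_top_eq,
        rk_map _ Φ.injective, rk_map _ Φ'.injective]
      have h3 : H.comap (FreeGroup.map (Fin.succAbove s))
          = (H ⊓ Sm s).comap (FreeGroup.map (Fin.succAbove s)) := by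
        ext x
        simp only [Subgroup.mem_comap, Subgroup.mem_inf]
        refine ⟨fun h => ⟨h, ?_⟩, fun h => h.1⟩
        rw [EL_Sm_eq_range]; exact ⟨x, rfl⟩
      rw [h3, rk_comap _ hsinj (H ⊓ Sm s) (by rw [← EL_Sm_eq_range]; exact inf_le_right)]
      exact hr

end Pool.Agent.helper22.EC
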