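import Pool.Agent.helper51.EC.SC3

/-!
# MP_00de39_al (project EC): ranks and free factors
-/

set_option autoImplicit false
set_option linter.unusedSectionVars false

namespace Pool.Agent.helper22.EC

open FreeGroup Cardinal

section FF

variable {G G' : Type} [Group G] [Group G'] [IsFreeGroup G] [IsFreeGroup G']

theorem rk_eq (H : Subgroup G) {ι : Type} (b : FreeGroupBasis ι H) : rk H = #ι := by
  have e : FreeGroup (IsFreeGroup.Generators H) ≃* FreeGroup ι :=
    (IsFreeGroup.mulEquiv H).trans b.repr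
  exact Cardinal.mk_congr (Equiv.ofFreeGroupEquiv e)

theorem FF_rk_congr (H : Subgroup G) (K : Subgroup G') (e : H ≃* K) : rk H = rk K := by
  have b := (IsFreeGroup.basis H).map e
  rw [rk_eq K b]
  rfl

/-- the sub-basis -/
theorem FF_subbasis {G : Type} [Group G] (H : Subgroup G) {ι : Type} (b : FreeGroupBasis ι H)
    (S : Set ι) :
    ∃ B : FreeGroupBasis S (Subgroup.closure ((fun i => (b i : G)) '' S)),
      ∀ i, (B i : G) = (b i : G) := by
  let f : FreeGroup S →* G :=
    H.subtype.comp (b.repr.symm.toMonoidHom.comp (FreeGroup.map Subtype.val))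
  have hf : Function.Injective f := by
    intro x y hxy
    have h1 : b.repr.symm (FreeGroup.map Subtype.val x) = b.repr.symm (FreeGroup.map Subtype.val y) :=
      H.subtype_injective hxy
    exact FreeGroup.map_injective Subtype.val_injective (b.repr.symm.injective h1)
  have hfi : ∀ i : S, f (of i) = (b i : G) := by
    intro i
    show ((b.repr.symm (FreeGroup.map Subtype.val (of i)) : H) : G) = _
    rw [FreeGroup.map.of]
    rfl
  have hr : f.range = Subgroup.closure ((fun i => (b i : G)) '' S) := by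
    have h1 : f = FreeGroup.lift (fun i : S => (b i : G)) := by
      ext i; rw [hfi, FreeGroup.lift_apply_of]
    rw [h1, FreeGroup.range_lift_eq_closure]
    congr 1
    ext x
    simp
  let e : FreeGroup S ≃* Subgroup.closure ((fun i => (b i : G)) '' S) :=
    (MonoidHom.ofInjective hf).trans (MulEquiv.subgroupCongr hr)
  refine ⟨FreeGroupBasis.ofRepr e.symm, fun i => ?_⟩
  have : (FreeGroupBasis.ofRepr e.symm : FreeGroupBasis S _) i = e (of i) := rfl
  rw [this]
  exact hfi i

theorem rk_closure (H : Subgroup G) {ι : Type} (b : FreeGroupBasis ι H) (S : Set ι) :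
    rk (Subgroup.closure ((fun i => (b i : G)) '' S)) = #S := by
  obtain ⟨B, _⟩ := FF_subbasis H b S
  exact rk_eq _ B

theorem rk_comap (f : G →* G') (hf : Function.Injective f) (H : Subgroup G') (hr : H ≤ f.range) :
    rk (H.comap f) = rk H := by
  have e : (H.comap f) ≃* H := by
    have h1 := (H.comap f).equivMapOfInjective f hf
    have h2 : (H.comap f).map f = H := by
      rw [Subgroup.map_comap_eq, inf_eq_right.2 hr]
    exact h1.trans (MulEquiv.subgroupCongr h2)
  exact FF_rk_congr _ _ e

theorem rk_map (f : G →* G') (hf : Function.Injective f) (H : Subgroup G) :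
    rk (H.map f) = rk H :=
  (FF_rk_congr _ _ (H.equivMapOfInjective f hf)).symm

theorem rk_bot : rk (⊥ : Subgroup G) = 0 := by
  have e : (⊥ : Subgroup G) ≃* FreeGroup Empty :=
    { toFun := fun _ => 1
      invFun := fun _ => 1
      left_inv := fun x => Subsingleton.elim _ _
      right_inv := fun x => Subsingleton.elim _ _
      map_mul' := fun x y => by simp }
  rw [rk_eq _ (FreeGroupBasis.ofRepr e)]
  simp

/-- a relative free factor in terms of a basis -/
theorem FF_rel {G : Type} [Group G] (A B : Subgroup G) (hAB : A ≤ B) {ι : Type}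
    (b : FreeGroupBasis ι B) (S : Set ι) (h : A.subgroupOf B = Subgroup.closure (b '' S)) :
    A = Subgroup.closure ((fun i => (b i : G)) '' S) := by
  have h1 : (A.subgroupOf B).map B.subtype = A := by
    rw [Subgroup.subgroupOf_map_subtype, inf_eq_left.2 hAB]
  rw [← h1, h, MonoidHom.map_closure, ← Set.image_comp]
  rfl

theorem rk_le_of_ff (A B : Subgroup G) (hAB : A ≤ B) (h : IsFF (A.subgroupOf B)) :
    rk A ≤ rk B := by
  obtain ⟨ι, b, S, h⟩ := h
  rw [FF_rel A B hAB b S h, rk_closure, rk_eq B b]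
  exact Cardinal.mk_set_le S

theorem rk_succ_le_of_ff (A B : Subgroup G) (hAB : A ≤ B) (h : IsFF (A.subgroupOf B))
    (hne : A ≠ B) : rk A + 1 ≤ rk B := by
  obtain ⟨ι, b, S, h⟩ := h
  have hS : S ≠ Set.univ := by
    rintro rfl
    apply hne
    rw [FF_rel A B hAB b _ h]
    have h1 : Subgroup.closure (Set.range b) = (⊤ : Subgroup B) := by
      rw [eq_top_iff]
      intro x _
      have : x = FreeGroup.lift b (b.repr x) := by
        have h2 : (MonoidHom.id B) = (FreeGroup.lift b).comp b.repr.toMonoidHom := by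
          apply b.ext_hom
          intro i
          simp
        exact DFunLike.congr_fun h2 x
      rw [this, ← FreeGroup.range_lift_eq_closure]
      exact ⟨_, rfl⟩
    have h2 : (Subgroup.closure (Set.range b)).map B.subtype = B := by
      rw [h1, ← MonoidHom.range_eq_map, Subgroup.range_subtype]
    rw [MonoidHom.map_closure] at h2
    rw [Set.image_univ]
    rw [← Set.range_comp] at h2
    exact h2
  obtain ⟨i, hi⟩ := (Set.ne_univ_iff_exists_notMem S).1 hS
  rw [FF_rel A B hAB b S h, rk_closure, rk_eq B b, ← Cardinal.mk_insert hi]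
  exact Cardinal.mk_set_le _

theorem FF_finite {G : Type} [Group G] (H : Subgroup G) (h : H.FG) {ι : Type}
    (b : FreeGroupBasis ι H) : Finite ι := by
  obtain ⟨T, hT⟩ := (Group.fg_iff_subgroup_fg H).2 h
  by_contra hinf
  rw [not_finite_iff_infinite] at hinf
  have h1 : Function.Injective (fun (f : H →* Multiplicative (ZMod 2)) (x : T) => f x.1) := by
    intro f g hfg
    refine MonoidHom.eq_of_eqOn_dense hT ?_
    intro x hx
    exact congr_fun hfg ⟨x, hx⟩
  have h2 : Finite (H →* Multiplicative (ZMod 2)) := Finite.of_injective _ h1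
  have h3 : Finite (ι → Multiplicative (ZMod 2)) := Finite.of_equiv _ b.lift.symm
  have h4 : Infinite (ι → Multiplicative (ZMod 2)) := inferInstance
  exact not_finite_iff_infinite.2 h4 h3

theorem rk_lt (H : Subgroup G) (h : H.FG) : rk H < ℵ₀ := by
  have := FF_finite H h (IsFreeGroup.basis H)
  exact Cardinal.lt_aleph0_iff_finite.2 this

theorem fg_of_ff (A B : Subgroup G) (hAB : A ≤ B) (h : IsFF (A.subgroupOf B)) (hB : B.FG) :
    A.FG := by
  obtain ⟨ι, b, S, h⟩ := h
  have := FF_finite B hB b
  rw [Subgroup.fg_iff]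
  exact ⟨_, (FF_rel A B hAB b S h).symm, (Set.toFinite S).image _⟩

theorem FF_map {G G' : Type} [Group G] [Group G'] (e : G ≃* G') (A : Subgroup G) (h : IsFF A) :
    IsFF (A.map e.toMonoidHom) := by
  obtain ⟨ι, b, S, rfl⟩ := h
  refine ⟨ι, b.map e, S, ?_⟩
  rw [MonoidHom.map_closure, ← Set.image_comp]
  rfl

theorem ff_inf (A B H : Subgroup G) (hAB : A ≤ B) (h : IsFF (A.subgroupOf B)) (hHB : H ≤ B) :
    IsFF ((H ⊓ A).subgroupOf H) := by
  have h1 := ff_inter (A.subgroupOf B) (H.subgroupOf B) h
  have h2 := FF_map (Subgroup.subgroupOfEquivOfLe hHB) _ h1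
  convert h2 using 1
  ext x
  constructor
  · intro hx
    exact ⟨(Subgroup.subgroupOfEquivOfLe hHB).symm x, hx.2, by simp⟩
  · rintro ⟨y, hy, rfl⟩
    exact ⟨(Subgroup.subgroupOfEquivOfLe hHB y).2, hy⟩

theorem ff_sub (A B C : Subgroup G) (hAB : A ≤ B) (hBC : B ≤ C) (h : IsFF (A.subgroupOf C)) :
    IsFF (A.subgroupOf B) := by
  have := ff_inf A C B (hAB.trans hBC) h hBC
  rwa [inf_eq_right.2 hAB] at this

theorem ff_comap (φ : G ≃* G') (A B : Subgroup G') (h : IsFF (A.subgroupOf B)) :
    IsFF ((A.comap φ.toMonoidHom).subgroupOf (B.comap φ.toMonoidHom)) := by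
  have h1 : (B.comap φ.toMonoidHom).map φ.toMonoidHom = B := by
    rw [Subgroup.map_comap_eq, MonoidHom.range_eq_top.2 φ.surjective, top_inf_eq]
  let e : B.comap φ.toMonoidHom ≃* B :=
    (φ.subgroupMap (B.comap φ.toMonoidHom)).trans (MulEquiv.subgroupCongr h1)
  have he : ∀ x, ((e x : B) : G') = φ x := fun x => rfl
  have h2 := FF_map e.symm _ h
  convert h2 using 1
  ext x
  constructor
  · intro hx
    refine ⟨e x, ?_, e.symm_apply_apply x⟩
    show ((e x : B) : G') ∈ A
    rw [he]; exact hx
  · rintro ⟨y, hy, rfl⟩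
    have h3 : φ ((e.symm y : B.comap φ.toMonoidHom) : G) = (y : G') := by
      rw [← he, e.apply_symm_apply]
    have h4 : φ ((e.symm y : B.comap φ.toMonoidHom) : G) ∈ A := by rw [h3]; exact hy
    exact h4

theorem ff_Sm {α : Type} [DecidableEq α] (s : α) : IsFF (Sm s) :=
  ⟨α, FreeGroupBasis.ofFreeGroup α, {b | b ≠ s}, rfl⟩

theorem ff_Fs (n i : ℕ) : IsFF (Fs n i) :=
  ⟨Fin n, FreeGroupBasis.ofFreeGroup (Fin n), {j | j.val < i}, rfl⟩

theorem inPFF_of_ff {α : Type} [DecidableEq α] [Fintype α] (A K : Subgroup (FreeGroup α))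
    (hA : IsFF A) (hne : A ≠ ⊤) (hK : K ≤ A) : InPFF K := by
  obtain ⟨ι, b, S, rfl⟩ := hA
  have hS : ∃ i, i ∉ S := by
    by_contra h
    push Not at h
    apply hne
    rw [eq_top_iff]
    intro x _
    have : x = FreeGroup.lift b (b.repr x) := by
      have h2 : (MonoidHom.id (FreeGroup α)) = (FreeGroup.lift b).comp b.repr.toMonoidHom := by
        apply b.ext_hom
        intro i
        simp
      exact DFunLike.congr_fun h2 x
    rw [this]
    have h3 : (FreeGroup.lift b).range ≤ Subgroup.closure (b '' S) := by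
      rw [FreeGroup.range_lift_eq_closure]
      refine Subgroup.closure_mono ?_
      rintro _ ⟨i, rfl⟩
      exact ⟨i, h i, rfl⟩
    exact h3 ⟨_, rfl⟩
  obtain ⟨i, hi⟩ := hS
  let e : ι ≃ α := (Equiv.ofFreeGroupEquiv b.repr).symm
  refine ⟨b.repr.trans (FreeGroup.freeGroupCongr e), e i, ?_⟩
  rintro _ ⟨x, hx, rfl⟩
  have h1 : (Subgroup.closure (b '' S)).map (b.repr.trans (FreeGroup.freeGroupCongr e)).toMonoidHom
      ≤ Sm (e i) := by
    rw [MonoidHom.map_closure, Subgroup.closure_le]
    rintro _ ⟨_, ⟨j, hj, rfl⟩, rfl⟩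
    refine Subgroup.subset_closure ⟨e j, ?_, ?_⟩
    · intro h
      rw [e.injective h] at hj
      exact hi hj
    · simp
  exact h1 ⟨x, hK hx, rfl⟩

end FF

end Pool.Agent.helper22.EC
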