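import Mathlib

/-!
# MP_00de39_al (project EC): parts of reduced words
-/

set_option autoImplicit false

namespace Pool.Agent.helper22.EC

open FreeGroup

/-- a contiguous part of a reduced word is reduced -/
theorem red_part {α : Type*} {L M : List (α × Bool)} (h : FreeGroup.IsReduced M)
    (hs : L <:+: M) : FreeGroup.IsReduced L := by
  obtain ⟨s, t, rfl⟩ := hs
  unfold FreeGroup.IsReduced at h ⊢
  exact (List.isChain_append.1 (List.isChain_append.1 h).1).2.1

end Pool.Agent.helper22.EC
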