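import Pool.Agent.helper71.EC.DC
import Pool.Agent.helper34.EC.CO
import Pool.Agent.helper34.EC.CV
import Pool.Agent.helper34.EC.BA
import Pool.Agent.helper34.EC.LE
import Pool.Agent.helper30.EC.WH
import Pool.Agent.helper30.EC.PR
import Pool.Agent.helper51.EC.SC1
import Pool.Agent.helper51.EC.SC2
import Pool.Agent.helper51.EC.SC3
import Pool.Agent.helper51.EC.SC4
import Pool.Agent.helper63.EC.SP
import Pool.Agent.helper63.EC.SD
import Pool.Agent.helper22.EC.FF
import Pool.Agent.helper22.EC.EL
import Pool.Agent.helper52.EC.EL2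

/-!
# MP_00de39_al (project EC): all modules
-/
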