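import Pool.Agent.helper22.EC.MT

/-!
# MP_00de39_al (project EC): the certificate
-/

set_option autoImplicit false
set_option linter.unusedSectionVars false
set_option linter.unusedVariables false

namespace Pool.Agent.helper22.EC

open FreeGroup Cardinal

/-! ### words -/

/-- one letter -/
def wl (n : ℕ) (l : ℕ × Bool) : FreeGroup (Fin n) :=
  if h : l.1 < n then (FreeGroup.mk [(⟨l.1, h⟩, l.2)] : FreeGroup (Fin n)) else 1

lemma wd_nil (n : ℕ) : wd n [] = 1 := rfl

lemma wd_cons (n : ℕ) (l : ℕ × Bool) (w : List (ℕ × Bool)) : wd n (l :: w) = wl n l * wd n w := by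
  rw [wd, List.map_cons, List.prod_cons]; rfl

lemma wd_append (n : ℕ) (u v : List (ℕ × Bool)) : wd n (u ++ v) = wd n u * wd n v := by
  rw [wd, List.map_append, List.prod_append]; rfl

lemma wl_neg (n i : ℕ) (b : Bool) : wl n (i, !b) = (wl n (i, b))⁻¹ := by
  unfold wl
  by_cases h : i < n
  · simp only [h, dite_true, inv_mk]
    rfl
  · simp [h]

lemma wd_invRev (n : ℕ) (w : List (ℕ × Bool)) : wd n (FreeGroup.invRev w) = (wd n w)⁻¹ := by
  induction w with
  | nil => simp [wd_nil]
  | cons l w ih =>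
    rw [invRev_cons, wd_append, ih, wd_cons, mul_inv_rev]
    congr 1
    rw [show FreeGroup.invRev [l] = [(l.1, !l.2)] from rfl, wd_cons, wd_nil, mul_one]
    exact wl_neg n l.1 l.2

lemma norm_wd_le (n : ℕ) (w : List (ℕ × Bool)) : FreeGroup.norm (wd n w) ≤ w.length := by
  induction w with
  | nil => simp [wd_nil]
  | cons l w ih =>
    rw [wd_cons, List.length_cons]
    refine (FreeGroup.norm_mul_le _ _).trans ?_
    have : FreeGroup.norm (wl n l) ≤ 1 := by
      unfold wl
      split_ifs with h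
      · have := norm_mk_le (L₁ := [((⟨l.1, h⟩ : Fin n), l.2)])
        simpa using this
      · simp
    omega

/-- the homomorphism given by a list of words -/
noncomputable def hs (n : ℕ) (fs : List (List (ℕ × Bool))) : FreeGroup (Fin n) →* FreeGroup (Fin n) :=
  FreeGroup.lift fun i : Fin n => wd n (fs.getD i.val [])

lemma hs_wl (n : ℕ) (fs : List (List (ℕ × Bool))) (hf : fs.length ≤ n) (l : ℕ × Bool) :
    hs n fs (wl n l) = wd n (if l.2 then fs.getD l.1 [] else FreeGroup.invRev (fs.getD l.1 [])) := by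
  obtain ⟨i, b⟩ := l
  by_cases h : i < n
  · have h1 : hs n fs (wl n (i, true)) = wd n (fs.getD i []) := by
      unfold wl hs
      simp only [h, dite_true]
      exact FreeGroup.lift_apply_of
    cases b
    · rw [show (false : Bool) = !true from rfl, wl_neg, _root_.map_inv, h1]
      simp only [Bool.not_true, Bool.false_eq_true, if_false]
      rw [wd_invRev]
    · simpa using h1
  · have h1 : fs.getD i [] = [] := by
      rw [List.getD_eq_default]; omega
    have h2 : wl n (i, b) = 1 := by simp [wl, h]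
    rw [h2, _root_.map_one]
    simp only [h1]
    cases b <;> simp [wd_nil]

lemma wd_sub (n : ℕ) (fs : List (List (ℕ × Bool))) (hf : fs.length ≤ n) (w : List (ℕ × Bool)) :
    wd n (sub fs w) = hs n fs (wd n w) := by
  induction w with
  | nil => simp [sub, wd_nil]
  | cons l w ih =>
    have e : sub fs (l :: w)
        = (if l.2 then fs.getD l.1 [] else FreeGroup.invRev (fs.getD l.1 [])) ++ sub fs w := rfl
    rw [e, wd_append, wd_cons, _root_.map_mul, ih, hs_wl n fs hf l]

lemma sg_nil (n : ℕ) : sg n [] = ⊥ := by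
  unfold sg
  simp

lemma sg_eq (n : ℕ) (ws : List (List (ℕ × Bool))) :
    sg n ws = Subgroup.closure {g | g ∈ ws.map (wd n)} := by
  unfold sg
  congr 1
  ext g
  simp only [Set.mem_ofPred_eq, List.mem_map]
  exact ⟨fun ⟨w, h, e⟩ => ⟨w, h, e.symm⟩, fun ⟨w, h, e⟩ => ⟨w, h, e.symm⟩⟩

lemma sg_map_sub (n : ℕ) (ws fs : List (List (ℕ × Bool))) (hf : fs.length ≤ n) :
    sg n (ws.map (sub fs)) = (sg n ws).map (hs n fs) := by
  unfold sg
  rw [MonoidHom.map_closure]
  congr 1
  ext g
  constructor
  · rintro ⟨w, hw, rfl⟩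
    obtain ⟨u, hu, rfl⟩ := List.mem_map.1 hw
    exact ⟨wd n u, ⟨u, hu, rfl⟩, (wd_sub n fs hf u).symm⟩
  · rintro ⟨_, ⟨u, hu, rfl⟩, rfl⟩
    exact ⟨sub fs u, List.mem_map.2 ⟨u, hu, rfl⟩, (wd_sub n fs hf u).symm⟩

lemma wl_of (n : ℕ) (i : Fin n) : wl n (i.val, true) = of i := by
  unfold wl
  simp [i.isLt]
  rfl

lemma sg_range_letters (n i : ℕ) (hi : i ≤ n) :
    sg n ((List.range i).map fun j => [(j, true)]) = Fs n i := by
  unfold sg Fs
  congr 1
  ext g
  constructor
  · rintro ⟨w, hw, rfl⟩
    obtain ⟨j, hj, rfl⟩ := List.mem_map.1 hw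
    rw [List.mem_range] at hj
    refine ⟨⟨j, by omega⟩, hj, ?_⟩
    rw [wd_cons, wd_nil, mul_one, ← wl_of]
  · rintro ⟨j, hj, rfl⟩
    refine ⟨[(j.val, true)], List.mem_map.2 ⟨j.val, List.mem_range.2 hj, rfl⟩, ?_⟩
    rw [wd_cons, wd_nil, mul_one, wl_of]

lemma sg_range_bs (n : ℕ) (bs : List (List (ℕ × Bool))) :
    sg n ((List.range n).map fun i => bs.getD i [])
      = Subgroup.closure (Set.range fun i : Fin n => wd n (bs.getD i.val [])) := by
  unfold sg
  congr 1
  ext g
  constructor
  · rintro ⟨w, hw, rfl⟩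
    obtain ⟨j, hj, rfl⟩ := List.mem_map.1 hw
    exact ⟨⟨j, List.mem_range.1 hj⟩, rfl⟩
  · rintro ⟨j, rfl⟩
    exact ⟨_, List.mem_map.2 ⟨j.val, List.mem_range.2 j.isLt, rfl⟩, rfl⟩

/-! ### soundness -/

theorem cert_sound (n : ℕ) (ws fs gs bs : List (List (ℕ × Bool))) (hf : fs.length ≤ n)
    (hg : gs.length ≤ n) (hC : Cert n ws fs gs bs) : IsEchelon (sg n ws) := by
  obtain ⟨h1, h2, h3, h4⟩ := hC
  have hinv : ∀ (fs gs : List (List (ℕ × Bool))), fs.length ≤ n → gs.length ≤ n →
      (∀ i < n, MemP n (sub fs (sub gs [(i, true)]) ++ [(i, false)]) []) →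
      ∀ x, hs n fs (hs n gs x) = x := by
    intro fs gs hf hg h x
    have : (hs n fs).comp (hs n gs) = MonoidHom.id _ := by
      ext i
      have h5 := h i.val i.isLt
      unfold MemP at h5
      rw [sg_nil, Subgroup.mem_bot, wd_append, wd_sub n fs hf, wd_sub n gs hg, wd_cons, wd_nil,
        mul_one, wl_of, wd_cons, wd_nil, mul_one, show (false : Bool) = !true from rfl, wl_neg,
        wl_of, mul_inv_eq_one] at h5
      exact h5
    exact DFunLike.congr_fun this x
  let Φ : FreeGroup (Fin n) ≃* FreeGroup (Fin n) :=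
    { toFun := hs n fs
      invFun := hs n gs
      left_inv := hinv gs fs hg hf fun i hi => (h1 i hi).2
      right_inv := hinv fs gs hf hg fun i hi => (h1 i hi).1
      map_mul' := _root_.map_mul _ }
  rw [isEchelon_iff]
  refine ⟨Φ, ?_⟩
  have hΦ : Φ.toMonoidHom = hs n fs := by ext x; rfl
  rw [hΦ, ← sg_map_sub n ws fs hf]
  have e : sg n (ws.map (sub fs))
      = Subgroup.closure (Set.range fun i : Fin n => wd n (bs.getD i.val [])) := by
    rw [← sg_range_bs]
    apply le_antisymm
    · unfold sg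
      rw [Subgroup.closure_le]
      rintro g ⟨w, hw, rfl⟩
      obtain ⟨u, hu, rfl⟩ := List.mem_map.1 hw
      exact h4 u hu
    · rw [sg_range_bs, Subgroup.closure_le]
      rintro _ ⟨i, rfl⟩
      exact h3 i.val i.isLt
  rw [e]
  refine ef_of_basis _ ?_ ?_
  · intro i
    have h5 := (h2 i.val i.isLt).1
    have h6 : ∀ w : List (ℕ × Bool), (∀ l ∈ w, l.1 ≤ i.val) → wd n w ∈ Fs n (i.val + 1) := by
      intro w
      induction w with
      | nil => intro _; rw [wd_nil]; exact Subgroup.one_mem _
      | cons l w ih =>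
        intro h
        rw [wd_cons]
        refine Subgroup.mul_mem _ ?_ (ih fun l hl => h l (List.mem_cons_of_mem _ hl))
        have hl := h l List.mem_cons_self
        have hl' : l.1 < n := by have := i.isLt; omega
        have h7 : wl n (l.1, true) ∈ Fs n (i.val + 1) := by
          have : wl n (l.1, true) = of (⟨l.1, hl'⟩ : Fin n) := wl_of n ⟨l.1, hl'⟩
          rw [this]
          exact Subgroup.subset_closure ⟨_, by show l.1 < i.val + 1; omega, rfl⟩
        obtain ⟨j, b⟩ := l
        cases b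
        · rw [show (false : Bool) = !true from rfl, wl_neg]
          exact Subgroup.inv_mem _ h7
        · exact h7
    exact h6 _ h5
  · intro i
    rcases (h2 i.val i.isLt).2 with h | h
    · left; simp only [h, wd_nil]
    · right
      unfold MemP at h
      rwa [sg_range_letters n i.val i.isLt.le] at h

/-! ### completeness -/

lemma CE_mem_lists {β : Type} (l : List β) (m : ℕ) (r : List β) :
    r ∈ lists l m ↔ r.length ≤ m ∧ ∀ x ∈ r, x ∈ l := by
  induction m generalizing r with
  | zero =>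
    rw [lists, List.mem_singleton]
    constructor
    · rintro rfl; simp
    · rintro ⟨h, _⟩; exact List.length_eq_zero_iff.1 (Nat.le_zero.1 h)
  | succ m ih =>
    rw [lists]
    cases r with
    | nil => simp
    | cons y r =>
      simp only [List.mem_cons, reduceCtorEq, List.mem_flatMap, List.mem_map, List.cons.injEq,
        false_or, List.length_cons, forall_eq_or_imp]
      constructor
      · rintro ⟨r', hr', x, hx, rfl, rfl⟩
        have := (ih r').1 hr'
        exact ⟨by omega, hx, this.2⟩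
      · rintro ⟨h1, h2, h3⟩
        exact ⟨r, (ih r).2 ⟨by omega, h3⟩, y, h2, rfl, rfl⟩

lemma mem_words (n B : ℕ) (w : List (ℕ × Bool)) :
    w ∈ words n B ↔ w.length ≤ B ∧ ∀ l ∈ w, l.1 < n := by
  rw [words, CE_mem_lists]
  refine and_congr_right fun _ => forall₂_congr fun l _ => ?_
  obtain ⟨i, b⟩ := l
  simp only [List.mem_flatMap, List.mem_range, List.mem_cons, Prod.mk.injEq, List.not_mem_nil,
    or_false]
  constructor
  · rintro ⟨j, hj, ⟨rfl, _⟩ | ⟨rfl, _⟩⟩ <;> exact hj
  · intro h
    refine ⟨i, h, ?_⟩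
    cases b
    · exact Or.inr ⟨rfl, rfl⟩
    · exact Or.inl ⟨rfl, rfl⟩

/-- the word of an element -/
def un {n : ℕ} (g : FreeGroup (Fin n)) : List (ℕ × Bool) := g.toWord.map fun l => (l.1.val, l.2)

lemma wd_un {n : ℕ} (g : FreeGroup (Fin n)) : wd n (un g) = g := by
  have h : ∀ w : List (Fin n × Bool), wd n (w.map fun l => (l.1.val, l.2)) = mk w := by
    intro w
    induction w with
    | nil => rfl
    | cons l w ih =>
      rw [List.map_cons, wd_cons, ih]
      have : wl n (l.1.val, l.2) = mk [l] := by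
        unfold wl
        simp [l.1.isLt]
      rw [this, mul_mk]; rfl
  rw [un, h, mk_toWord]

lemma un_length {n : ℕ} (g : FreeGroup (Fin n)) : (un g).length = FreeGroup.norm g := by
  rw [un, List.length_map]; rfl

lemma mem_closure_of {α : Type} [DecidableEq α] (S : Set α) (g : FreeGroup α)
    (h : g ∈ Subgroup.closure (of '' S)) : ∀ l ∈ g.toWord, l.1 ∈ S := by
  induction h using Subgroup.closure_induction with
  | mem x hx =>
    obtain ⟨a, ha, rfl⟩ := hx
    intro l hl
    rw [toWord_of, List.mem_singleton] at hl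
    rw [hl]; exact ha
  | one => intro l hl; simp at hl
  | mul x y _ _ hx hy =>
    intro l hl
    have := (toWord_mul_sublist x y).subset hl
    rcases List.mem_append.1 this with h | h
    · exact hx l h
    · exact hy l h
  | inv x _ hx =>
    intro l hl
    rw [toWord_inv] at hl
    unfold FreeGroup.invRev at hl
    rw [List.mem_reverse, List.mem_map] at hl
    obtain ⟨l', hl', rfl⟩ := hl
    exact hx l' hl'

lemma ofFn_getD {n : ℕ} (f : Fin n → List (ℕ × Bool)) (i : Fin n) :
    (List.ofFn f).getD i.val [] = f i := by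
  rw [List.getD_eq_getElem _ _ (by simp)]
  simp

lemma bt_mono (n : ℕ) {N N' : ℕ} (h : N ≤ N') : bt n N ≤ bt n N' := by
  induction n with
  | zero => exact le_rfl
  | succ n ih =>
    rw [bt, bt]
    have h1 : nst (n + 1) N ≤ nst (n + 1) N' := by
      unfold nst
      exact Nat.pow_le_pow_right (by norm_num) (Nat.pow_le_pow_right (by omega) (by omega))
    have h2 : (9 : ℕ) ^ N ≤ 9 ^ N' := Nat.pow_le_pow_right (by norm_num) h
    have h3 : (9 : ℕ) ^ nst (n + 1) N ≤ 9 ^ nst (n + 1) N' := Nat.pow_le_pow_right (by norm_num) h1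
    exact Nat.mul_le_mul (max_le_max ih le_rfl) (Nat.mul_le_mul h2 h3)

/-- the search bound -/
def bnd (p : ℕ × List (List (ℕ × Bool))) : ℕ :=
  2 * (((2 * (p.2.map List.length).sum + 1) * bt p.1 (p.2.map List.length).sum)
    * (p.2.map List.length).sum) + 1
    + (2 * (p.2.map List.length).sum + 1) * bt p.1 (p.2.map List.length).sum

theorem cert_complete (n : ℕ) (ws : List (List (ℕ × Bool))) (h : IsEchelon (sg n ws)) :
    ∃ fs ∈ lists (words n (bnd (n, ws))) n, ∃ gs ∈ lists (words n (bnd (n, ws))) n,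
      ∃ bs ∈ lists (words n (bnd (n, ws))) n, Cert n ws fs gs bs := by
  rw [sg_eq] at h
  obtain ⟨Φ, hB, hE⟩ := MT2 n (ws.map (wd n)) h
  set T := (ws.map List.length).sum with hT
  set T' := ((ws.map (wd n)).map FreeGroup.norm).sum with hT'
  have hTT : T' ≤ T := by
    rw [hT, hT', List.map_map]
    clear * -
    induction ws with
    | nil => simp
    | cons w ws ih =>
      simp only [List.map_cons, List.sum_cons, Function.comp]
      have := norm_wd_le n w
      have h' := ih
      simp only [Function.comp_def] at h'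
      omega
  set B := (2 * T + 1) * bt n T with hBdef
  have hB' : Bd B Φ := Bd_mono hB (Nat.mul_le_mul (by omega) (bt_mono n hTT))
  have hbnd : bnd (n, ws) = 2 * (B * T) + 1 + B := rfl
  -- the generators of the image
  set us := ws.map fun w => Φ (wd n w) with hus
  have hmap : (Subgroup.closure {g | g ∈ ws.map (wd n)}).map Φ.toMonoidHom
      = Subgroup.closure {g | g ∈ us} := by
    rw [MonoidHom.map_closure]
    congr 1
    ext g
    simp only [Set.mem_image, Set.mem_ofPred_eq, List.mem_map, hus]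
    constructor
    · rintro ⟨_, ⟨w, hw, rfl⟩, rfl⟩; exact ⟨w, hw, rfl⟩
    · rintro ⟨w, hw, rfl⟩; exact ⟨_, ⟨w, hw, rfl⟩, rfl⟩
  rw [hmap] at hE
  obtain ⟨b, hb1, hb2, hb3, hb4⟩ := ef_basis us hE
  have hus_norm : (us.map FreeGroup.norm).sum ≤ B * T := by
    rw [hus, hT, List.map_map]
    have : ∀ ws : List (List (ℕ × Bool)),
        (ws.map (FreeGroup.norm ∘ fun w => Φ (wd n w))).sum ≤ B * (ws.map List.length).sum := by
      intro ws
      induction ws with
      | nil => simp
      | cons w ws ih =>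
        simp only [List.map_cons, List.sum_cons, Function.comp]
        have h1 := norm_of_bd Φ.toMonoidHom (B := B) (fun x => (hB' x).1) (wd n w)
        have h2 := norm_wd_le n w
        have h3 : B * FreeGroup.norm (wd n w) ≤ B * w.length := Nat.mul_le_mul_left _ h2
        have h4 := ih
        simp only [Function.comp_def] at h4
        have h5 : FreeGroup.norm (Φ (wd n w)) ≤ B * FreeGroup.norm (wd n w) := h1
        rw [mul_add]
        omega
    exact this ws
  have hmem : ∀ f : Fin n → FreeGroup (Fin n), (∀ i, FreeGroup.norm (f i) ≤ 2 * (B * T) + 1 + B) →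
      List.ofFn (fun i => un (f i)) ∈ lists (words n (bnd (n, ws))) n := by
    intro f hf
    rw [CE_mem_lists]
    refine ⟨by simp, ?_⟩
    intro x hx
    rw [List.mem_ofFn] at hx
    obtain ⟨i, rfl⟩ := hx
    rw [mem_words, un_length, hbnd]
    refine ⟨hf i, ?_⟩
    intro l hl
    rw [un, List.mem_map] at hl
    obtain ⟨l', _, rfl⟩ := hl
    exact l'.1.isLt
  set fs := List.ofFn (fun i => un (Φ (of i))) with hfs
  set gs := List.ofFn (fun i => un (Φ.symm (of i))) with hgs
  set bs := List.ofFn (fun i => un (b i)) with hbs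
  have hfl : fs.length ≤ n := by rw [hfs]; simp
  have hgl : gs.length ≤ n := by rw [hgs]; simp
  have hf1 : hs n fs = Φ.toMonoidHom := by
    ext i
    rw [hs, FreeGroup.lift_apply_of, hfs, ofFn_getD, wd_un]
    rfl
  have hg1 : hs n gs = Φ.symm.toMonoidHom := by
    ext i
    rw [hs, FreeGroup.lift_apply_of, hgs, ofFn_getD, wd_un]
    rfl
  refine ⟨fs, hmem _ (fun i => ((hB' i).1).trans (by omega)), gs,
    hmem _ (fun i => ((hB' i).2).trans (by omega)), bs,
    hmem _ (fun i => (hb1 i).trans (by omega)), ?_, ?_, ?_, ?_⟩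
  · intro i hi
    unfold MemP
    rw [sg_nil, Subgroup.mem_bot, Subgroup.mem_bot, wd_append, wd_append, wd_sub n fs hfl,
      wd_sub n gs hgl, wd_sub n gs hgl, wd_sub n fs hfl, hf1, hg1, wd_cons, wd_nil, mul_one,
      wd_cons, wd_nil, mul_one, show (false : Bool) = !true from rfl, wl_neg]
    constructor
    · rw [mul_inv_eq_one]; exact Φ.apply_symm_apply _
    · rw [mul_inv_eq_one]; exact Φ.symm_apply_apply _
  · intro i hi
    have hget : bs.getD i [] = un (b ⟨i, hi⟩) := ofFn_getD (fun i => un (b i)) ⟨i, hi⟩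
    rw [hget]
    constructor
    · intro l hl
      rw [un, List.mem_map] at hl
      obtain ⟨l', hl', rfl⟩ := hl
      have := mem_closure_of _ _ (hb2 ⟨i, hi⟩) l' hl'
      have h' : l'.1.val < i + 1 := this
      show l'.1.val ≤ i
      omega
    · rcases hb3 ⟨i, hi⟩ with h0 | h0
      · left; rw [h0, un]; simp
      · right
        unfold MemP
        rw [sg_range_letters n i hi.le, wd_un]
        exact h0
  · intro i hi
    have hget : bs.getD i [] = un (b ⟨i, hi⟩) := ofFn_getD (fun i => un (b i)) ⟨i, hi⟩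
    unfold MemP
    rw [hget, wd_un, sg_map_sub n ws fs hfl, hf1, sg_eq, hmap, hb4]
    exact Subgroup.subset_closure ⟨_, rfl⟩
  · intro w hw
    unfold MemP
    rw [wd_sub n fs hfl, hf1, sg_range_bs]
    have e : (fun i : Fin n => wd n (bs.getD i.val [])) = b := by
      funext i
      rw [hbs, ofFn_getD, wd_un]
    rw [e, ← hb4]
    exact Subgroup.subset_closure (List.mem_map.2 ⟨w, hw, rfl⟩)

theorem isEchelon_iff_search (p : ℕ × List (List (ℕ × Bool))) : IsEchelon (sg p.1 p.2) ↔
    ∃ fs ∈ lists (words p.1 (bnd p)) p.1, ∃ gs ∈ lists (words p.1 (bnd p)) p.1,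
      ∃ bs ∈ lists (words p.1 (bnd p)) p.1, Cert p.1 p.2 fs gs bs := by
  constructor
  · exact cert_complete p.1 p.2
  · rintro ⟨fs, hf, gs, hg, bs, _, hC⟩
    exact cert_sound p.1 p.2 fs gs bs ((CE_mem_lists _ _ _).1 hf).1 ((CE_mem_lists _ _ _).1 hg).1 hC

/-! ### primitive recursion of the bound -/

lemma nat_pow_prim : Primrec₂ ((· ^ ·) : ℕ → ℕ → ℕ) :=
  Primrec₂.unpaired'.1 Nat.Primrec.pow

lemma nst_prim : Primrec₂ nst := by
  unfold nst
  have h1 : Primrec fun p : ℕ × ℕ => (2 * p.1 + 1) ^ (2 * p.2 + 1) :=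
    nat_pow_prim.comp
      (Primrec.nat_add.comp (Primrec.nat_mul.comp (Primrec.const 2) Primrec.fst) (Primrec.const 1))
      (Primrec.nat_add.comp (Primrec.nat_mul.comp (Primrec.const 2) Primrec.snd) (Primrec.const 1))
  exact nat_pow_prim.comp (Primrec.const 2) h1

lemma bt_prim : Primrec₂ bt := by
  have h : Primrec₂ fun (N : ℕ) (q : ℕ × ℕ) => max q.2 1 * (9 ^ N * 9 ^ nst (q.1 + 1) N) := by
    refine Primrec.nat_mul.comp ?_ ?_
    · exact Primrec.nat_max.comp (Primrec.snd.comp Primrec.snd) (Primrec.const 1)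
    · refine Primrec.nat_mul.comp (nat_pow_prim.comp (Primrec.const 9) Primrec.fst) ?_
      exact nat_pow_prim.comp (Primrec.const 9) (nst_prim.comp
        (Primrec.succ.comp (Primrec.fst.comp Primrec.snd)) Primrec.fst)
  have h2 := Primrec.nat_rec (f := fun _ : ℕ => 1) (Primrec.const 1) h
  have h3 : Primrec₂ fun (n N : ℕ) => (Nat.rec 1 (fun m ih =>
      (fun (N : ℕ) (q : ℕ × ℕ) => max q.2 1 * (9 ^ N * 9 ^ nst (q.1 + 1) N)) N (m, ih)) n : ℕ) :=
    h2.comp Primrec.snd Primrec.fst
  refine h3.of_eq fun n N => ?_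
  induction n with
  | zero => rfl
  | succ n ih => simp only [bt]; rw [← ih]

lemma bnd_prim : Primrec bnd := by
  have h1 : Primrec fun p : ℕ × List (List (ℕ × Bool)) => (p.2.map List.length).sum := by
    have h2 : Primrec fun p : ℕ × List (List (ℕ × Bool)) =>
        p.2.foldr (fun w s => w.length + s) 0 :=
      Primrec.list_foldr Primrec.snd (Primrec.const 0)
        (Primrec.nat_add.comp (Primrec.list_length.comp (Primrec.fst.comp Primrec.snd))
          (Primrec.snd.comp Primrec.snd)).to₂
    refine h2.of_eq fun p => ?_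
    induction p.2 with
    | nil => rfl
    | cons w ws ih => simp [List.foldr_cons, ih]
  have h3 : Primrec fun p : ℕ × List (List (ℕ × Bool)) =>
      (2 * (p.2.map List.length).sum + 1) * bt p.1 (p.2.map List.length).sum :=
    Primrec.nat_mul.comp (Primrec.nat_add.comp (Primrec.nat_mul.comp (Primrec.const 2) h1)
      (Primrec.const 1)) (bt_prim.comp Primrec.fst h1)
  exact Primrec.nat_add.comp (Primrec.nat_add.comp (Primrec.nat_mul.comp (Primrec.const 2)
    (Primrec.nat_mul.comp h3 h1)) (Primrec.const 1)) h3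

end Pool.Agent.helper22.EC
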