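import Mathlib

/-!
# MP_00de39_al (project EC): definitions

Free groups, echelon subgroups, directions, core edges.
-/

set_option autoImplicit false

namespace Pool.Agent.helper22.EC

open FreeGroup

/-! ## Ranks, free factors, echelon subgroups -/

/-- The rank of a subgroup of a free group: the cardinality of a free basis
(subgroups of free groups are free by the Nielsen-Schreier theorem). -/
noncomputable def rk {G : Type} [Group G] [IsFreeGroup G] (H : Subgroup G) : Cardinal :=
  Cardinal.mk (IsFreeGroup.Generators H)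

/-- `F_i = ⟨X_0, ..., X_{i-1}⟩` for an ordered free basis `X` of the free group of rank `n`. -/
def Fb {n : ℕ} (X : FreeGroupBasis (Fin n) (FreeGroup (Fin n))) (i : ℕ) :
    Subgroup (FreeGroup (Fin n)) := Subgroup.closure (X '' {j | j.val < i})

/-- `H` is in echelon form with respect to the ordered basis `X`. -/
def EchelonForm {n : ℕ} (X : FreeGroupBasis (Fin n) (FreeGroup (Fin n)))
    (H : Subgroup (FreeGroup (Fin n))) : Prop :=
  ∀ i < n, rk (H ⊓ Fb X (i + 1)) ≤ rk (H ⊓ Fb X i) + 1

/-- `H` is an echelon subgroup. -/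
def IsEchelon {n : ℕ} (H : Subgroup (FreeGroup (Fin n))) : Prop :=
  ∃ X : FreeGroupBasis (Fin n) (FreeGroup (Fin n)), EchelonForm X H

/-- The standard flag. -/
def Fs (n i : ℕ) : Subgroup (FreeGroup (Fin n)) :=
  Subgroup.closure (FreeGroup.of '' {j : Fin n | j.val < i})

/-- Echelon form with respect to the standard basis. -/
def EF {n : ℕ} (H : Subgroup (FreeGroup (Fin n))) : Prop :=
  ∀ i < n, rk (H ⊓ Fs n (i + 1)) ≤ rk (H ⊓ Fs n i) + 1

/-- `A` is a free factor of the free group `G`. -/
def IsFF {G : Type} [Group G] (A : Subgroup G) : Prop :=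
  ∃ (ι : Type) (b : FreeGroupBasis ι G) (S : Set ι), A = Subgroup.closure (b '' S)

/-! ## Letters and directions -/

section Letters

variable {α : Type} [DecidableEq α]

/-- the inverse letter -/
def nb (y : α × Bool) : α × Bool := (y.1, !y.2)

/-- the letter `y` as a group element -/
def lt (y : α × Bool) : FreeGroup α := FreeGroup.mk [y]

/-- elements whose reduced word begins with the letter `y` -/
def U (y : α × Bool) : Set (FreeGroup α) := {g | g.toWord.head? = some y}

/-- `g⁻¹ K g` -/
def cj (K : Subgroup (FreeGroup α)) (g : FreeGroup α) : Subgroup (FreeGroup α) :=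
  K.comap (MulAut.conj g).toMonoidHom

/-- The directions of `K`: letters `y` such that infinitely many elements of `K` begin with `y`. -/
def D (K : Subgroup (FreeGroup α)) : Set (α × Bool) :=
  {y | ((K : Set (FreeGroup α)) ∩ U y).Infinite}

/-- Directions at the vertex `v = g H` of the Schreier graph: directions of `g H g⁻¹`. -/
def Dv (H : Subgroup (FreeGroup α)) (v : FreeGroup α ⧸ H) : Set (α × Bool) :=
  D (MulAction.stabilizer (FreeGroup α) v)

/-- Vertices of the core with an edge in direction `y`. -/
def edg (H : Subgroup (FreeGroup α)) (y : α × Bool) : Set (FreeGroup α ⧸ H) :=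
  {v | y ∈ Dv H v ∧ (Dv H v).Nontrivial}

/-- Vertices crossing the partition `A | Aᶜ` of the letters. -/
def crs (H : Subgroup (FreeGroup α)) (A : Set (α × Bool)) : Set (FreeGroup α ⧸ H) :=
  {v | (Dv H v ∩ A).Nonempty ∧ (Dv H v ∩ Aᶜ).Nonempty}

/-- The number of edges of the core graph. -/
noncomputable def EE [Fintype α] (H : Subgroup (FreeGroup α)) : ℕ :=
  ∑ a : α, (edg H (a, true)).ncard

/-- `⟨b : b ≠ s⟩` -/
def Sm (s : α) : Subgroup (FreeGroup α) := Subgroup.closure (FreeGroup.of '' {b | b ≠ s})

/-- `K` is contained in a proper free factor (`α` finite). -/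
def InPFF (K : Subgroup (FreeGroup α)) : Prop :=
  ∃ (ψ : FreeGroup α ≃* FreeGroup α) (s : α), K.map ψ.toMonoidHom ≤ Sm s

/-- bounded automorphisms -/
def Bd (B : ℕ) (φ : FreeGroup α ≃* FreeGroup α) : Prop :=
  ∀ x, FreeGroup.norm (φ (of x)) ≤ B ∧ FreeGroup.norm (φ.symm (of x)) ≤ B

/-- the states: normalized finitely generated subgroups with at most `N` core edges -/
def St [Fintype α] (N : ℕ) : Set (Subgroup (FreeGroup α)) :=
  {K | (D K).Nontrivial ∧ K.FG ∧ EE K ≤ N}

/-- one step between states -/
def Stp [Fintype α] (N : ℕ) (K K' : Subgroup (FreeGroup α)) : Prop :=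
  K' ∈ St N ∧ ∃ φ : FreeGroup α ≃* FreeGroup α, Bd 9 φ ∧ K' = K.comap φ.toMonoidHom

end Letters

/-! ## Words -/

/-- the element of the free group of rank `n` given by a word; letters `≥ n` are dropped -/
def wd (n : ℕ) (w : List (ℕ × Bool)) : FreeGroup (Fin n) :=
  (w.map fun l => if h : l.1 < n then (FreeGroup.mk [(⟨l.1, h⟩, l.2)] : FreeGroup (Fin n)) else 1).prod

/-- the subgroup generated by a list of words -/
def sg (n : ℕ) (ws : List (List (ℕ × Bool))) : Subgroup (FreeGroup (Fin n)) :=
  Subgroup.closure {g | ∃ w ∈ ws, g = wd n w}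

/-- The decision problem: the input is `n` and a list of words in the letters `0, ..., n-1` (a pair
`(i, true)` is the letter `x_i`, `(i, false)` is its inverse), and the subgroup that they generate
is an echelon subgroup of the free group of rank `n`. -/
def Ech (p : ℕ × List (List (ℕ × Bool))) : Prop :=
  (∀ w ∈ p.2, ∀ l ∈ w, l.1 < p.1) ∧ IsEchelon (sg p.1 p.2)

end Pool.Agent.helper22.EC
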