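import Pool.Agent.helper22.EC.CE

/-!
# MP_00de39_al (project EC): the decision procedure
-/

set_option autoImplicit false

namespace Pool.Agent.helper22.EC

lemma valid_prim : PrimrecPred (fun p : ℕ × List (List (ℕ × Bool)) =>
    ∀ w ∈ p.2, ∀ l ∈ w, l.1 < p.1) := by
  have h1 : PrimrecRel fun (l : ℕ × Bool) (n : ℕ) => l.1 < n :=
    Primrec.nat_lt.comp (Primrec.fst.comp Primrec.fst) Primrec.snd
  have h2 : PrimrecRel fun (w : List (ℕ × Bool)) (n : ℕ) => ∀ l ∈ w, l.1 < n := h1.forall_mem_list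
  have h3 : PrimrecRel fun (ws : List (List (ℕ × Bool))) (n : ℕ) => ∀ w ∈ ws, ∀ l ∈ w, l.1 < n :=
    h2.forall_mem_list
  exact h3.comp Primrec.snd Primrec.fst

theorem ech_prim : PrimrecPred Ech := by
  have h := valid_prim.and (search_prim bnd bnd_prim)
  refine h.of_eq fun p => ?_
  unfold Ech
  rw [isEchelon_iff_search]

theorem ech_computable : ComputablePred Ech := by
  obtain ⟨hd, h⟩ := ech_prim
  exact ⟨hd, h.to_comp⟩

end Pool.Agent.helper22.EC
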