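import Pool.Agent.helper22.EC.P1

/-!
# MP_00de39_al (project EC): the bounded theorem
-/

set_option autoImplicit false
set_option linter.unusedSectionVars false
set_option linter.unusedVariables false

namespace Pool.Agent.helper22.EC

open FreeGroup Cardinal

/-- the bound -/
def bt : ℕ → ℕ → ℕ
  | 0, _ => 1
  | n + 1, N => max (bt n N) 1 * (9 ^ N * 9 ^ nst (n + 1) N)

lemma bt_pos (n N : ℕ) : 1 ≤ bt n N := by
  cases n with
  | zero => exact le_rfl
  | succ n =>
    rw [bt]
    have h1 : 1 ≤ max (bt n N) 1 := le_max_right _ _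
    have h2 : 1 ≤ 9 ^ N := Nat.one_le_pow _ _ (by norm_num)
    have h3 : 1 ≤ 9 ^ nst (n + 1) N := Nat.one_le_pow _ _ (by norm_num)
    exact Nat.one_le_iff_ne_zero.2 (by positivity)

lemma Sm_eq_range {n : ℕ} (s : Fin (n + 1)) :
    Sm s = (FreeGroup.map (Fin.succAbove s)).range := by
  rw [FreeGroup.range_map, Sm]
  congr 2
  ext b
  simp [Fin.range_succAbove]

lemma isEchelon_of_EF_map {n : ℕ} (H : Subgroup (FreeGroup (Fin n)))
    (Φ : FreeGroup (Fin n) ≃* FreeGroup (Fin n)) (h : EF (H.map Φ.toMonoidHom)) : IsEchelon H :=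
  (isEchelon_iff H).2 ⟨Φ, h⟩

lemma map_map_symm {n : ℕ} (H : Subgroup (FreeGroup (Fin n)))
    (φ Φ : FreeGroup (Fin n) ≃* FreeGroup (Fin n)) :
    (H.comap φ.toMonoidHom).map Φ.toMonoidHom = H.map (φ.symm.trans Φ).toMonoidHom := by
  rw [comap_eq_map_symm, Subgroup.map_map]
  rfl

theorem MT : ∀ (n N : ℕ) (H : Subgroup (FreeGroup (Fin n))), H ∈ St N → IsEchelon H →
    ∃ Φ : FreeGroup (Fin n) ≃* FreeGroup (Fin n), Bd (bt n N) Φ ∧ EF (H.map Φ.toMonoidHom) := by
  intro n
  induction n with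
  | zero =>
    intro N H hH _
    exfalso
    obtain ⟨y, _, _⟩ := hH.1
    exact y.1.elim0
  | succ n ih =>
    intro N H hH hE
    by_cases hP : InPFF H
    · obtain ⟨φ, s, hφ, hst, hs⟩ := phase2 N N H hH.2.2 hH hP
      have h1 : IsEchelon (H.comap φ.toMonoidHom) := isEchelon_comap φ H hE
      have h2 := echelon_desc s _ hs h1
      have h3 : (H.comap φ.toMonoidHom).comap (FreeGroup.map (Fin.succAbove s)) ∈ St N :=
        St_emb (Fin.succAbove s) Fin.succAbove_right_injective N _ hst (by rw [← Sm_eq_range]; exact hs)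
      obtain ⟨Φ', hB, hEF⟩ := ih N _ h3 h2
      obtain ⟨Φ, hB', hEF'⟩ := echelon_step s (H.comap φ.toMonoidHom)
        (by rw [inf_eq_left.2 hs]; exact le_self_add) (bt n N) Φ' hB hEF
      rw [map_map_symm] at hEF'
      refine ⟨φ.symm.trans Φ, Bd_mono (Bd_trans (Bd_symm hφ) hB') ?_, hEF'⟩
      rw [bt, mul_comm]
      refine Nat.mul_le_mul_left _ ?_
      exact Nat.le_mul_of_pos_right _ (by positivity)
    · obtain ⟨A, hA, hA1, hrk, hEA⟩ := echelon_top H hE
      by_cases hbot : H ⊓ A = ⊥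
      · rw [hbot, rk_bot, zero_add] at hrk
        refine ⟨MulEquiv.refl _, Bd_mono Bd_refl (bt_pos _ _), ?_⟩
        have : H.map (MulEquiv.refl (FreeGroup (Fin (n + 1)))).toMonoidHom = H := by
          ext x; simp
        rw [this]
        exact EF_of_rk_le_one H hrk
      · have hff : IsFF ((H ⊓ A).subgroupOf H) := by
          have := ff_inter A H hA
          rwa [← Subgroup.inf_subgroupOf_left] at this
        have hne : H ⊓ A ≠ H := by
          intro h
          apply hP
          exact inPFF_of_ff A H hA hA1 (inf_eq_left.1 h)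
        have hLP : InPFF (H ⊓ A) := inPFF_of_ff A _ hA hA1 inf_le_right
        obtain ⟨ψ, hreach, hn1, hE1⟩ := phase1 N H (H ⊓ A) hH inf_le_left hbot hff hrk hne hLP hP
        obtain ⟨φ, hφ, hφH⟩ := reach N H _ hH hreach
        rw [Fintype.card_fin] at hφ
        -- the pair after phase 1
        set H1 := H.comap ψ.toMonoidHom with hH1
        set L1 := (H ⊓ A).comap ψ.toMonoidHom with hL1
        have hL1H1 : L1 ≤ H1 := (comap_le_comap_iff _ _ ψ).2 inf_le_left
        have hL1ff : IsFF (L1.subgroupOf H1) := ff_comap ψ _ _ hff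
        have hH1fg : H1.FG := fg_comap H hH.2.1 ψ
        have hL1st : L1 ∈ St N := ⟨hn1, fg_of_ff L1 H1 hL1H1 hL1ff hH1fg, hE1⟩
        have hL1P : InPFF L1 := inPFF_comap _ ψ hLP
        have hH1P : ¬ InPFF H1 := fun h => hP ((inPFF_comap_iff H ψ).1 h)
        have hL1E : IsEchelon L1 := isEchelon_comap ψ _ hEA
        have hrk1 : rk H1 ≤ rk L1 + 1 := by
          rw [hH1, hL1, rk_comap_equiv, rk_comap_equiv]; exact hrk
        -- phase 2
        obtain ⟨χ, s, hχ, hL2st, hL2s⟩ := phase2 N N L1 hL1st.2.2 hL1st hL1P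
        set H2 := H1.comap χ.toMonoidHom with hH2
        set L2 := L1.comap χ.toMonoidHom with hL2
        have hL2H2 : L2 ≤ H2 := (comap_le_comap_iff _ _ χ).2 hL1H1
        have hL2ff : IsFF (L2.subgroupOf H2) := ff_comap χ _ _ hL1ff
        have hH2P : ¬ InPFF H2 := fun h => hH1P ((inPFF_comap_iff H1 χ).1 h)
        have hrk2 : rk H2 ≤ rk L2 + 1 := by
          rw [hH2, hL2, rk_comap_equiv H1 χ, rk_comap_equiv L1 χ]; exact hrk1
        have hL2E : IsEchelon L2 := isEchelon_comap χ _ hL1E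
        -- the intersection with `Sm s`
        have hM : H2 ⊓ Sm s = L2 := by
          have hMff : IsFF ((H2 ⊓ Sm s).subgroupOf H2) := by
            have := ff_inter (Sm s) H2 (ff_Sm s)
            rwa [← Subgroup.inf_subgroupOf_left] at this
          have hMne : H2 ⊓ Sm s ≠ H2 := by
            intro h
            apply hH2P
            refine ⟨MulEquiv.refl _, s, ?_⟩
            rintro _ ⟨x, hx, rfl⟩
            exact inf_eq_left.1 h hx
          have hle : L2 ≤ H2 ⊓ Sm s := le_inf hL2H2 hL2s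
          by_contra hne2
          have h1 := rk_succ_le_of_ff L2 (H2 ⊓ Sm s) hle
            (ff_sub L2 (H2 ⊓ Sm s) H2 hle inf_le_left hL2ff) (fun h => hne2 h.symm)
          have h2 := rk_succ_le_of_ff (H2 ⊓ Sm s) H2 inf_le_left hMff hMne
          obtain ⟨l, hl⟩ := Cardinal.lt_aleph0.1 (rk_lt L2 hL2st.2.1)
          have h6 : rk L2 + 1 + 1 ≤ rk L2 + 1 := (add_le_add_left h1 1).trans (h2.trans hrk2)
          rw [hl] at h6
          have h7 : ((l + 1 + 1 : ℕ) : Cardinal) ≤ ((l + 1 : ℕ) : Cardinal) := by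
            push_cast; exact h6
          rw [Nat.cast_le] at h7
          omega
        have hK : H2.comap (FreeGroup.map (Fin.succAbove s))
            = L2.comap (FreeGroup.map (Fin.succAbove s)) := by
          rw [← hM, Sm_eq_range]
          ext x
          simp [Subgroup.mem_comap]
        have h3 : L2.comap (FreeGroup.map (Fin.succAbove s)) ∈ St N :=
          St_emb (Fin.succAbove s) Fin.succAbove_right_injective N _ hL2st
            (by rw [← Sm_eq_range]; exact hL2s)
        obtain ⟨Φ', hB, hEF⟩ := ih N _ h3 (echelon_desc s L2 hL2s hL2E)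
        rw [← hK] at hEF
        obtain ⟨Φ, hB', hEF'⟩ := echelon_step s H2 (by rw [hM]; exact hrk2) (bt n N) Φ' hB hEF
        have e : H2 = H.comap (χ.trans φ).toMonoidHom := by
          rw [hH2, hφH, comap_comp_assoc]
        rw [e, map_map_symm] at hEF'
        refine ⟨(χ.trans φ).symm.trans Φ, Bd_mono (Bd_trans (Bd_symm (Bd_trans hχ hφ)) hB') ?_,
          hEF'⟩
        rw [bt, mul_comm]

/-- the bounded theorem for a subgroup given by generators -/
theorem MT2 (n : ℕ) (ws : List (FreeGroup (Fin n)))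
    (h : IsEchelon (Subgroup.closure {g | g ∈ ws})) :
    ∃ Φ : FreeGroup (Fin n) ≃* FreeGroup (Fin n),
      Bd ((2 * (ws.map FreeGroup.norm).sum + 1) * bt n (ws.map FreeGroup.norm).sum) Φ ∧
      EF ((Subgroup.closure {g | g ∈ ws}).map Φ.toMonoidHom) := by
  by_cases hbot : Subgroup.closure {g | g ∈ ws} = ⊥
  · refine ⟨MulEquiv.refl _, Bd_mono Bd_refl ?_, ?_⟩
    · exact Nat.one_le_iff_ne_zero.2 (Nat.mul_ne_zero (by omega) (by have := bt_pos n (ws.map FreeGroup.norm).sum; omega))
    · rw [hbot, Subgroup.map_bot]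
      exact EF_of_rk_le_one _ (by rw [rk_bot]; exact zero_le_one)
  · obtain ⟨g, hg, hD⟩ := base_point ws hbot
    set T := (ws.map FreeGroup.norm).sum with hT
    set H := Subgroup.closure {g | g ∈ ws} with hH
    have hfg : H.FG := ⟨ws.toFinset, by rw [hH]; congr 1; ext x; simp⟩
    have hst : cj H g ∈ St T := ⟨hD, fg_comap H hfg (MulAut.conj g), by
      rw [EE_cj, hH]; exact EE_le ws⟩
    obtain ⟨Φ, hB, hE⟩ := MT n T (cj H g) hst (isEchelon_comap (MulAut.conj g) H h)
    rw [cj_eq, map_map_symm] at hE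
    refine ⟨(MulAut.conj g).symm.trans Φ, Bd_trans (Bd_symm ?_) hB, hE⟩
    intro x
    constructor
    · show FreeGroup.norm (g * of x * g⁻¹) ≤ _
      have h1 := FreeGroup.norm_mul_le (g * of x) g⁻¹
      have h2 := FreeGroup.norm_mul_le g (of x)
      rw [norm_inv_eq] at h1
      rw [norm_of] at h2
      omega
    · rw [MulAut.conj_symm_apply]
      have h1 := FreeGroup.norm_mul_le (g⁻¹ * of x) g
      have h2 := FreeGroup.norm_mul_le g⁻¹ (of x)
      rw [norm_inv_eq, norm_of] at h2
      omega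

end Pool.Agent.helper22.EC
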