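import Pool.Agent.helper22.EC.All

/-!
# MP_00de39_al (project EC): phases 1 and 2
-/

set_option autoImplicit false
set_option linter.unusedSectionVars false
set_option linter.unusedVariables false

namespace Pool.Agent.helper22.EC

open FreeGroup Cardinal

section Letters

variable {α : Type} [DecidableEq α]

/-! ### automorphisms -/

lemma norm_of_bd {B : ℕ} (f : FreeGroup α →* FreeGroup α) (hf : ∀ x, FreeGroup.norm (f (of x)) ≤ B)
    (g : FreeGroup α) : FreeGroup.norm (f g) ≤ B * FreeGroup.norm g := by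
  have h : ∀ w : List (α × Bool), FreeGroup.norm (f (mk w)) ≤ B * w.length := by
    intro w
    induction w with
    | nil => rw [← one_eq_mk, _root_.map_one]; simp
    | cons y w ih =>
      have e : (mk (y :: w) : FreeGroup α) = mk [y] * mk w := by rw [mul_mk]; rfl
      rw [e, _root_.map_mul]
      refine (FreeGroup.norm_mul_le _ _).trans ?_
      have h1 : FreeGroup.norm (f (mk [y])) ≤ B := by
        obtain ⟨x, b⟩ := y
        cases b
        · have : (mk [(x, false)] : FreeGroup α) = (of x)⁻¹ := rfl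
          rw [this, _root_.map_inv, norm_inv_eq]; exact hf x
        · exact hf x
      rw [List.length_cons, mul_add, mul_one]
      omega
  have := h g.toWord
  rwa [mk_toWord] at this

lemma Bd_trans {B B' : ℕ} {φ ψ : FreeGroup α ≃* FreeGroup α} (h : Bd B φ) (h' : Bd B' ψ) :
    Bd (B * B') (φ.trans ψ) := by
  intro x
  constructor
  · refine (norm_of_bd ψ.toMonoidHom (B := B') (fun x => (h' x).1) (φ (of x))).trans ?_
    rw [mul_comm]
    exact Nat.mul_le_mul_right _ (h x).1
  · refine (norm_of_bd φ.symm.toMonoidHom (B := B) (fun x => (h x).2) (ψ.symm (of x))).trans ?_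
    exact Nat.mul_le_mul_left _ (h' x).2

lemma Bd_symm {B : ℕ} {φ : FreeGroup α ≃* FreeGroup α} (h : Bd B φ) : Bd B φ.symm :=
  fun x => ⟨(h x).2, (h x).1⟩

lemma Bd_refl : Bd 1 (MulEquiv.refl (FreeGroup α)) := fun x => by simp

lemma Bd_mono {B B' : ℕ} {φ : FreeGroup α ≃* FreeGroup α} (h : Bd B φ) (hB : B ≤ B') : Bd B' φ :=
  fun x => ⟨(h x).1.trans hB, (h x).2.trans hB⟩

lemma cj_eq (K : Subgroup (FreeGroup α)) (g : FreeGroup α) :
    cj K g = K.comap (MulAut.conj g).toMonoidHom := rfl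

lemma comap_trans (K : Subgroup (FreeGroup α)) (φ ψ : FreeGroup α ≃* FreeGroup α) :
    (K.comap ψ.toMonoidHom).comap φ.toMonoidHom = K.comap (φ.trans ψ).toMonoidHom := rfl

lemma comap_eq_map_symm (K : Subgroup (FreeGroup α)) (φ : FreeGroup α ≃* FreeGroup α) :
    K.comap φ.toMonoidHom = K.map φ.symm.toMonoidHom :=
  (Subgroup.map_equiv_eq_comap_symm' φ.symm K).symm

lemma fg_comap (K : Subgroup (FreeGroup α)) (hK : K.FG) (φ : FreeGroup α ≃* FreeGroup α) :
    (K.comap φ.toMonoidHom).FG := by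
  rw [comap_eq_map_symm]
  obtain ⟨S, hS⟩ := hK
  classical
  refine ⟨S.image φ.symm, ?_⟩
  rw [← hS, MonoidHom.map_closure, Finset.coe_image]
  rfl

lemma comap_le_comap_iff (A B : Subgroup (FreeGroup α)) (φ : FreeGroup α ≃* FreeGroup α) :
    A.comap φ.toMonoidHom ≤ B.comap φ.toMonoidHom ↔ A ≤ B := by
  constructor
  · intro h x hx
    obtain ⟨y, rfl⟩ := φ.surjective x
    exact h (show y ∈ A.comap φ.toMonoidHom from hx)
  · intro h x hx
    exact h hx

lemma comap_inj (A B : Subgroup (FreeGroup α)) (φ : FreeGroup α ≃* FreeGroup α) :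
    A.comap φ.toMonoidHom = B.comap φ.toMonoidHom ↔ A = B := by
  constructor
  · intro h
    exact le_antisymm ((comap_le_comap_iff A B φ).1 h.le) ((comap_le_comap_iff B A φ).1 h.ge)
  · rintro rfl; rfl

lemma inPFF_comap (K : Subgroup (FreeGroup α)) (φ : FreeGroup α ≃* FreeGroup α)
    (h : InPFF K) : InPFF (K.comap φ.toMonoidHom) := by
  obtain ⟨ψ, s, h⟩ := h
  refine ⟨φ.trans ψ, s, ?_⟩
  rintro _ ⟨x, hx, rfl⟩
  exact h ⟨φ x, hx, rfl⟩

lemma inPFF_comap_iff (K : Subgroup (FreeGroup α)) (φ : FreeGroup α ≃* FreeGroup α) :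
    InPFF (K.comap φ.toMonoidHom) ↔ InPFF K := by
  refine ⟨fun h => ?_, inPFF_comap K φ⟩
  have := inPFF_comap _ φ.symm h
  rw [comap_trans] at this
  have e : φ.symm.trans φ = MulEquiv.refl _ := by ext x; simp
  rw [e] at this
  exact this

variable [Fintype α]

/-- conjugation as an automorphism with bound -/
lemma Bd_conj (y : α × Bool) : Bd 3 (MulAut.conj (lt y)) := by
  have h1 : ∀ y : α × Bool, FreeGroup.norm (lt y) ≤ 1 := fun y => by
    have := norm_mk_le (L₁ := [y])
    simpa [lt] using this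
  intro x
  constructor
  · show FreeGroup.norm (lt y * of x * (lt y)⁻¹) ≤ 3
    refine (FreeGroup.norm_mul_le _ _).trans ?_
    have h2 := FreeGroup.norm_mul_le (lt y) (of x)
    have h3 := h1 y
    rw [norm_inv_eq]
    rw [norm_of] at h2
    omega
  · show FreeGroup.norm ((MulAut.conj (lt y)).symm (of x)) ≤ 3
    rw [MulAut.conj_symm_apply]
    refine (FreeGroup.norm_mul_le _ _).trans ?_
    have h2 := FreeGroup.norm_mul_le (lt y)⁻¹ (of x)
    have h3 := h1 y
    rw [norm_inv_eq, norm_of] at h2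
    omega

/-- one step of phase 1 -/
theorem p1_step (H L : Subgroup (FreeGroup α)) (hH : H.FG) (hLH : L ≤ H)
    (hn : (D L).Nontrivial) (hff : IsFF (L.subgroupOf H)) (hrk : rk H ≤ rk L + 1) (hne : L ≠ H)
    (hL : InPFF L) (hH' : ¬ InPFF H) :
    EE L ≤ EE H ∨ ∃ φ : FreeGroup α ≃* FreeGroup α, Bd 9 φ ∧ EE (H.comap φ.toMonoidHom) ≤ EE H ∧
      EE (L.comap φ.toMonoidHom) < EE L ∧ (D (L.comap φ.toMonoidHom)).Nontrivial := by
  classical
  have hLfg : L.FG := fg_of_ff L H hLH hff hH
  by_cases hfill : ∀ (v : FreeGroup α ⧸ H) (P Q : Set (α × Bool)), P ∪ Q = Dv H v → Disjoint P Q →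
      P.Nonempty → Q.Nonempty → ∃ u : FreeGroup α ⧸ L, Subgroup.quotientMapOfLE hLH u = v ∧
        (Dv L u ∩ P).Nonempty ∧ (Dv L u ∩ Q).Nonempty
  · right
    rcases cvl L hLfg hn hL with ⟨s, hs⟩ | ⟨A, a, ha, hna, hA, hlt⟩
    · exfalso
      apply hH'
      have h1 : edg H (s, true) = ∅ := by
        rw [Set.eq_empty_iff_forall_notMem]
        rintro v ⟨hv1, hv2⟩
        obtain ⟨z, hz, hzs⟩ := hv2.exists_ne (s, true)
        obtain ⟨u, -, ⟨y1, hy1, hy1'⟩, ⟨y2, hy2, hy2'⟩⟩ := hfill v {(s, true)} (Dv H v \ {(s, true)})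
          (by rw [Set.union_sdiff_cancel]; simpa using hv1) Set.disjoint_sdiff_right
          (Set.singleton_nonempty _) ⟨z, hz, hzs⟩
        have h2 : u ∈ edg L (s, true) := by
          rw [Set.mem_singleton_iff] at hy1'
          subst hy1'
          exact ⟨hy1, ⟨_, hy1, y2, hy2, fun h => hy2'.2 h.symm⟩⟩
        rw [hs] at h2
        exact h2
      have h2 := unused H (hn.mono (D_mono hLH)) s h1
      exact ⟨MulEquiv.refl _, s, by
        rintro _ ⟨x, hx, rfl⟩
        exact h2 hx⟩
    · obtain ⟨θ, hθb, hθE, hθD⟩ := whitehead A a ha hna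
      have hcr : crs H A ⊆ edg H a := by
        rintro v ⟨⟨y, hy, hyA⟩, ⟨z, hz, hzA⟩⟩
        refine ⟨?_, ⟨y, hy, z, hz, fun h => hzA (h ▸ hyA)⟩⟩
        by_contra hav
        obtain ⟨u, -, ⟨y1, hy1, hy1'⟩, ⟨y2, hy2, hy2'⟩⟩ := hfill v (Dv H v ∩ A) (Dv H v ∩ Aᶜ)
          (by rw [← Set.inter_union_distrib_left, Set.union_compl_self, Set.inter_univ])
          (by
            rw [Set.disjoint_left]
            rintro x ⟨-, hx⟩ ⟨-, hx'⟩
            exact hx' hx) ⟨y, hy, hyA⟩ ⟨z, hz, hzA⟩
        have h3 := hA u ⟨y1, hy1, hy1'.2, fun h => hav (by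
          rw [Set.mem_singleton_iff] at h; rw [← h]; exact hy1'.1)⟩
        rw [Set.eq_empty_iff_forall_notMem] at h3
        exact h3 y2 ⟨hy2, hy2'.2⟩
      have h1 : (crs H A).ncard ≤ (edg H a).ncard := Set.ncard_le_ncard hcr (edg_finite H hH a)
      have h2 := hθE H
      have h3 := hθE L
      rcases hθD L hn with hd | hd
      · exact ⟨θ, fun x => ⟨((hθb x).1).trans (by norm_num), ((hθb x).2).trans (by norm_num)⟩,
          by omega, by omega, hd⟩
      · have hcomm : ∀ K : Subgroup (FreeGroup α), (cj K (lt a)).comap θ.toMonoidHom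
            = cj (K.comap θ.toMonoidHom) (θ.symm (lt a)) := by
          intro K
          ext x
          simp [cj, Subgroup.mem_comap]
        refine ⟨θ.trans (MulAut.conj (lt a)), Bd_trans (B := 3) (B' := 3) hθb (Bd_conj a), ?_, ?_, ?_⟩
        · rw [← comap_trans, ← cj_eq, hcomm, EE_cj]; omega
        · rw [← comap_trans, ← cj_eq, hcomm, EE_cj]; omega
        · rw [← comap_trans, ← cj_eq]; exact hd
  · left
    push Not at hfill
    obtain ⟨v, P, Q, hPQ, hd, hP, hQ, hns⟩ := hfill
    obtain ⟨H', hLH', hH'H, hne', hff', hE⟩ := split H L hH hLH hn v P Q hPQ hd hP hQ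
      (fun u hu h => by
        have := hns u hu h.1
        rw [this] at h
        exact Set.not_nonempty_empty h.2)
    have h1 : IsFF (L.subgroupOf H') := ff_sub L H' H hLH' hH'H hff
    have h2 : L = H' := by
      by_contra hne2
      have h3 := rk_succ_le_of_ff L H' hLH' h1 hne2
      have h4 := rk_succ_le_of_ff H' H hH'H hff' hne'
      have h5 := rk_lt L hLfg
      obtain ⟨l, hl⟩ := Cardinal.lt_aleph0.1 h5
      have h6 : rk L + 1 + 1 ≤ rk L + 1 :=
        (add_le_add_left h3 1).trans (h4.trans hrk)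
      rw [hl] at h6
      have h7 : ((l + 1 + 1 : ℕ) : Cardinal) ≤ ((l + 1 : ℕ) : Cardinal) := by
        push_cast; exact h6
      rw [Nat.cast_le] at h7
      omega
    rw [h2]; exact hE

lemma comap_fg_st {N : ℕ} {H : Subgroup (FreeGroup α)} (hH : H ∈ St N)
    (φ : FreeGroup α ≃* FreeGroup α) (hφ : Bd 9 φ)
    (hn : (D (H.comap φ.toMonoidHom)).Nontrivial) (hE : EE (H.comap φ.toMonoidHom) ≤ N) :
    Stp N H (H.comap φ.toMonoidHom) :=
  ⟨⟨hn, fg_comap H hH.2.1 φ, hE⟩, φ, hφ, rfl⟩

/-- moving the base point to a core vertex -/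
theorem move_base (H : Subgroup (FreeGroup α)) (hH : H.FG) (hn : (D H).Nontrivial)
    (g : FreeGroup α) (hg : (D (cj H g)).Nontrivial) :
    Relation.ReflTransGen (Stp (EE H)) H (cj H g) := by
  -- `g` is a prefix of an element of `H`
  have hpre : g = 1 ∨ ∃ k ∈ H, ∃ q, k.toWord = g.toWord ++ q := by
    by_cases hg1 : g = 1
    · exact Or.inl hg1
    · right
      obtain ⟨y1, hy1, y2, hy2, hne⟩ := hg
      -- one of the directions does not go back
      have hw : g.toWord ≠ [] := fun h => hg1 (toWord_eq_nil_iff.1 h)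
      have hred : ∀ y : α × Bool, y ≠ nb (g.toWord.getLast hw) → FreeGroup.IsReduced (g.toWord ++ [y]) := by
        intro y hy
        have h1 : FreeGroup.IsReduced g.toWord := isReduced_toWord
        unfold FreeGroup.IsReduced at h1 ⊢
        rw [List.isChain_append]
        refine ⟨h1, List.isChain_singleton _, ?_⟩
        intro a ha b hb hab
        rw [List.getLast?_eq_some_getLast hw, Option.mem_some_iff] at ha
        simp only [List.head?_cons, Option.mem_some_iff] at hb
        subst ha; subst hb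
        by_contra hcon
        apply hy
        rw [nb]
        ext
        · exact hab.symm
        · simp only
          revert hcon
          cases (g.toWord.getLast hw).2 <;> cases y.2 <;> simp
      by_cases h : y1 = nb (g.toWord.getLast hw)
      · obtain ⟨k, hk, q, hq⟩ := hull_edge H g y2 hy2 (hred y2 (fun h2 => hne (h.trans h2.symm)))
        exact ⟨k, hk, [y2] ++ q, by rw [← List.append_assoc]; exact hq.symm⟩
      · obtain ⟨k, hk, q, hq⟩ := hull_edge H g y1 hy1 (hred y1 h)
        exact ⟨k, hk, [y1] ++ q, by rw [← List.append_assoc]; exact hq.symm⟩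
  rcases hpre with rfl | ⟨k, hk, q, hq⟩
  · rw [cj_one]
  -- walk along the prefixes
  have hwalk : ∀ p r : List (α × Bool), g.toWord = p ++ r →
      Relation.ReflTransGen (Stp (EE H)) H (cj H (mk p)) := by
    intro p
    induction p using List.reverseRecOn with
    | nil => intro r _; rw [← one_eq_mk, cj_one]
    | append_singleton p y ih =>
      intro r hr
      have h1 := ih ([y] ++ r) (by rw [hr, List.append_assoc])
      refine h1.tail ?_
      have e : cj H (mk (p ++ [y])) = cj (cj H (mk p)) (lt y) := by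
        rw [cj_cj, lt, mul_mk]
      have hE : EE (cj H (mk (p ++ [y]))) ≤ EE H := by rw [EE_cj]
      have hn2 : (D (cj H (mk (p ++ [y])))).Nontrivial := by
        cases r with
        | nil =>
          rw [List.append_nil] at hr
          have : mk (p ++ [y]) = g := by rw [← hr, mk_toWord]
          rw [this]; exact hg
        | cons z r =>
          exact (hull_next H hn k hk (p ++ [y]) (r ++ q) z (by rw [hq, hr]; simp)).2
      have hfg2 : (cj H (mk (p ++ [y]))).FG := fg_comap H hH (MulAut.conj (mk (p ++ [y])))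
      refine ⟨⟨hn2, hfg2, hE⟩, MulAut.conj (lt y), Bd_mono (Bd_conj y) (by norm_num), ?_⟩
      rw [← cj_eq]; exact e
  have := hwalk g.toWord [] (by simp)
  rwa [mk_toWord] at this

lemma comap_comp_assoc (K : Subgroup (FreeGroup α)) (φ ψ : FreeGroup α ≃* FreeGroup α) :
    (K.comap ψ.toMonoidHom).comap φ.toMonoidHom = K.comap (φ.trans ψ).toMonoidHom := rfl

/-- the loop of phase 1 -/
theorem p1_loop (N m : ℕ) : ∀ (H L : Subgroup (FreeGroup α)), EE L ≤ m → H ∈ St N → L ≤ H →
    (D L).Nontrivial → IsFF (L.subgroupOf H) → rk H ≤ rk L + 1 → L ≠ H → InPFF L → ¬ InPFF H →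
    ∃ ψ : FreeGroup α ≃* FreeGroup α, Relation.ReflTransGen (Stp N) H (H.comap ψ.toMonoidHom) ∧
      (D (L.comap ψ.toMonoidHom)).Nontrivial ∧ EE (L.comap ψ.toMonoidHom) ≤ N := by
  induction m with
  | zero =>
    intro H L hm hH _ hn _ _ _ _ _
    exact ⟨MulEquiv.refl _, Relation.ReflTransGen.refl, hn, hm.trans (Nat.zero_le _)⟩
  | succ m ih =>
    intro H L hm hH hLH hn hff hrk hne hL hH'
    rcases p1_step H L hH.2.1 hLH hn hff hrk hne hL hH' with h | ⟨φ, hφ, hE1, hE2, hn2⟩
    · exact ⟨MulEquiv.refl _, Relation.ReflTransGen.refl, hn, h.trans hH.2.2⟩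
    · have hstep : Stp N H (H.comap φ.toMonoidHom) :=
        comap_fg_st hH φ hφ (hn2.mono (D_mono ((comap_le_comap_iff L H φ).2 hLH)))
          (hE1.trans hH.2.2)
      obtain ⟨ψ, h1, h2, h3⟩ := ih (H.comap φ.toMonoidHom) (L.comap φ.toMonoidHom) (by omega)
        hstep.1 ((comap_le_comap_iff L H φ).2 hLH) hn2 (ff_comap φ L H hff)
        (by
          rw [rk_comap φ.toMonoidHom φ.injective H (by
              rw [MonoidHom.range_eq_top.2 φ.surjective]; exact le_top),
            rk_comap φ.toMonoidHom φ.injective L (by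
              rw [MonoidHom.range_eq_top.2 φ.surjective]; exact le_top)]
          exact hrk)
        (fun h => hne ((comap_inj L H φ).1 h)) (inPFF_comap L φ hL)
        (fun h => hH' ((inPFF_comap_iff H φ).1 h))
      refine ⟨ψ.trans φ, Relation.ReflTransGen.head hstep ?_, ?_, ?_⟩
      · rw [← comap_comp_assoc]; exact h1
      · rw [← comap_comp_assoc]; exact h2
      · rw [← comap_comp_assoc]; exact h3

lemma rk_comap_equiv (H : Subgroup (FreeGroup α)) (φ : FreeGroup α ≃* FreeGroup α) :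
    rk (H.comap φ.toMonoidHom) = rk H :=
  rk_comap φ.toMonoidHom φ.injective H (by
    rw [MonoidHom.range_eq_top.2 φ.surjective]; exact le_top)

/-- phase 1 -/
theorem phase1 (N : ℕ) (H L : Subgroup (FreeGroup α)) (hH : H ∈ St N) (hLH : L ≤ H)
    (hbot : L ≠ ⊥) (hff : IsFF (L.subgroupOf H)) (hrk : rk H ≤ rk L + 1) (hne : L ≠ H)
    (hL : InPFF L) (hH' : ¬ InPFF H) :
    ∃ ψ : FreeGroup α ≃* FreeGroup α, Relation.ReflTransGen (Stp N) H (H.comap ψ.toMonoidHom) ∧
      (D (L.comap ψ.toMonoidHom)).Nontrivial ∧ EE (L.comap ψ.toMonoidHom) ≤ N := by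
  obtain ⟨g, hg⟩ := exists_base L hbot
  have hle : cj L g ≤ cj H g := fun x hx => hLH hx
  have h1 := move_base H hH.2.1 hH.1 g (hg.mono (D_mono hle))
  have h1' : Relation.ReflTransGen (Stp N) H (cj H g) := by
    have h2 : (Stp (EE H) : Subgroup (FreeGroup α) → Subgroup (FreeGroup α) → Prop) ≤ Stp N := by
      rintro A B ⟨⟨a, b, c⟩, d⟩
      exact ⟨⟨a, b, c.trans hH.2.2⟩, d⟩
    exact Relation.ReflTransGen.mono h2 _ _ h1
  have hst : cj H g ∈ St N :=
    ⟨hg.mono (D_mono hle), fg_comap H hH.2.1 (MulAut.conj g), by rw [EE_cj]; exact hH.2.2⟩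
  obtain ⟨ψ, h2, h3, h4⟩ := p1_loop N (EE (cj L g)) (cj H g) (cj L g) le_rfl hst hle hg
    (ff_comap (MulAut.conj g) L H hff)
    (by rw [cj_eq, cj_eq, rk_comap_equiv, rk_comap_equiv]; exact hrk)
    (fun h => hne ((comap_inj L H (MulAut.conj g)).1 h)) (inPFF_comap L (MulAut.conj g) hL)
    (fun h => hH' ((inPFF_comap_iff H (MulAut.conj g)).1 h))
  refine ⟨ψ.trans (MulAut.conj g), h1'.trans ?_, ?_, ?_⟩
  · rw [← comap_comp_assoc]; exact h2
  · rw [← comap_comp_assoc]; exact h3
  · rw [← comap_comp_assoc]; exact h4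

/-- phase 2: a subgroup of a proper free factor -/
theorem phase2 (N : ℕ) : ∀ (m : ℕ) (K : Subgroup (FreeGroup α)), EE K ≤ m → K ∈ St N → InPFF K →
    ∃ (φ : FreeGroup α ≃* FreeGroup α) (s : α), Bd (9 ^ m) φ ∧
      K.comap φ.toMonoidHom ∈ St N ∧ K.comap φ.toMonoidHom ≤ Sm s := by
  intro m
  induction m with
  | zero =>
    intro K hm hK hp
    rcases cvl K hK.2.1 hK.1 hp with ⟨s, hs⟩ | ⟨A, a, ha, hna, hA, hlt⟩
    · exact ⟨MulEquiv.refl _, s, by rw [pow_zero]; exact Bd_refl, hK, unused K hK.1 s hs⟩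
    · exfalso
      have h1 : (edg K (a.1, true)).ncard ≤ EE K :=
        Finset.single_le_sum (f := fun b => (edg K (b, true)).ncard)
          (fun _ _ => Nat.zero_le _) (Finset.mem_univ a.1)
      have h2 : (edg K a).ncard = (edg K (a.1, true)).ncard := by
        obtain ⟨x, b⟩ := a
        cases b
        · have := edg_nb K (x, true)
          exact this
        · rfl
      omega
  | succ m ih =>
    intro K hm hK hp
    rcases cvl K hK.2.1 hK.1 hp with ⟨s, hs⟩ | ⟨A, a, ha, hna, hA, hlt⟩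
    · exact ⟨MulEquiv.refl _, s, Bd_mono Bd_refl (Nat.one_le_pow _ _ (by norm_num)), hK,
        unused K hK.1 s hs⟩
    · obtain ⟨θ, hθb, hθE, hθD⟩ := whitehead A a ha hna
      have h2 := hθE K
      have key : ∃ φ : FreeGroup α ≃* FreeGroup α, Bd 9 φ ∧ EE (K.comap φ.toMonoidHom) < EE K ∧
          (D (K.comap φ.toMonoidHom)).Nontrivial := by
        rcases hθD K hK.1 with hd | hd
        · exact ⟨θ, fun x => ⟨((hθb x).1).trans (by norm_num), ((hθb x).2).trans (by norm_num)⟩,
            by omega, hd⟩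
        · have hcomm : (cj K (lt a)).comap θ.toMonoidHom
              = cj (K.comap θ.toMonoidHom) (θ.symm (lt a)) := by
            ext x
            simp [cj, Subgroup.mem_comap]
          refine ⟨θ.trans (MulAut.conj (lt a)), Bd_trans (B := 3) (B' := 3) hθb (Bd_conj a),
            ?_, ?_⟩
          · rw [← comap_trans, ← cj_eq, hcomm, EE_cj]; omega
          · rw [← comap_trans, ← cj_eq]; exact hd
      obtain ⟨φ, hφ, hE, hn⟩ := key
      obtain ⟨ψ, s, h3, h4, h5⟩ := ih (K.comap φ.toMonoidHom) (by omega)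
        ⟨hn, fg_comap K hK.2.1 φ, hE.le.trans hK.2.2⟩ (inPFF_comap K φ hp)
      refine ⟨ψ.trans φ, s, ?_, ?_, ?_⟩
      · rw [pow_succ]; exact Bd_trans h3 hφ
      · rw [← comap_comp_assoc]; exact h4
      · rw [← comap_comp_assoc]; exact h5

end Letters

end Pool.Agent.helper22.EC
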